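import Pool.Agent.V8H33.GJ.GeoA
import Pool.Agent.V8H1.GJ.Tree

set_option autoImplicit false

namespace Pool.Agent.V8H33.GJ

open Finset

variable {d : ℕ}

/-- the alive words of length j -/
noncomputable def Al (X : Finset (Lab d)) (j : ℕ) : Finset (List (Fin d)) := by
  classical
  exact (wd d (j + 1)).filter (fun w => w.length = j ∧ ∃ v ∈ X, InBr w v)

theorem mem_Al {X : Finset (Lab d)} {j : ℕ} {w : List (Fin d)} :
    w ∈ Al X j ↔ w.length = j ∧ ∃ v ∈ X, InBr w v := by
  classical
  rw [Al, Finset.mem_filter, mem_wd]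
  constructor
  · exact fun h => h.2
  · exact fun h => ⟨by omega, h⟩

/-- alive children -/
noncomputable def ch (X : Finset (Lab d)) (w : List (Fin d)) : Finset (Fin d) := by
  classical
  exact Finset.univ.filter (fun i => ∃ v ∈ X, InBr (i :: w) v)

theorem mem_ch {X : Finset (Lab d)} {w : List (Fin d)} {i : Fin d} :
    i ∈ ch X w ↔ ∃ v ∈ X, InBr (i :: w) v := by
  classical
  simp [ch]

theorem inBr_of_cons {w : List (Fin d)} {i : Fin d} {v : Lab d} (h : InBr (i :: w) v) :
    InBr w v := by
  obtain ⟨u, rfl⟩ := h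
  exact ⟨u ++ [i], by simp⟩

theorem al_zero (X : Finset (Lab d)) : (Al X 0).card ≤ 1 := by
  refine Finset.card_le_one.2 ?_
  intro a ha b hb
  have h1 := (mem_Al.1 ha).1
  have h2 := (mem_Al.1 hb).1
  rw [List.length_eq_zero_iff.1 h1, List.length_eq_zero_iff.1 h2]

/-- the word of length j of a label -/
def wordOf (j : ℕ) : Lab d → List (Fin d)
  | Lab.apx u => u.drop (u.length - j)
  | _ => []

theorem wordOf_eq {j : ℕ} {w : List (Fin d)} {v : Lab d} (hw : w.length = j) (h : InBr w v) :
    wordOf j v = w := by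
  obtain ⟨u, rfl⟩ := h
  have e : (u ++ w).length - j = u.length := by rw [List.length_append]; omega
  simp only [wordOf, e, List.drop_left]

theorem ch_le {k : ℕ} {X R : Finset (Lab d)} (hX : X ⊆ LS (wd d k)) (hR : R ⊆ X)
    (hRc : R.card = d + 1)
    (H : ∀ w ∈ wd d k, ∀ (g : Fin 4 → Option (Fin d)) (x : Fin 4 → Lab d), Function.Injective g →
      (∀ i, Side (LS (wd d k)) w (g i) (x i)) → ∃ i, x i ∉ X)
    {j : ℕ} (hj : j < k) {w : List (Fin d)} (hw : w.length = j) (hs : w ∉ R.image (wordOf j)) :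
    (ch X w).card ≤ 2 := by
  classical
  by_contra hcon
  push Not at hcon
  obtain ⟨a, ha, b, hb, c, hc, hab, hac, hbc⟩ := Finset.two_lt_card.1 hcon
  obtain ⟨va, hva, hva'⟩ := mem_ch.1 ha
  obtain ⟨vb, hvb, hvb'⟩ := mem_ch.1 hb
  obtain ⟨vc, hvc, hvc'⟩ := mem_ch.1 hc
  obtain ⟨r, hr, hrF⟩ : ∃ r ∈ R, r ∉ FS w := by
    by_contra h
    push Not at h
    have h1 : R ⊆ FS w := h
    have := Finset.card_le_card h1
    rw [hRc, card_FS] at this
    omega
  have hrB : ¬ InBr w r := by
    intro h
    apply hs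
    rw [Finset.mem_image]
    exact ⟨r, hr, wordOf_eq hw h⟩
  obtain ⟨i, hi⟩ := H w (mem_wd.2 (by omega)) ![none, some a, some b, some c] ![r, va, vb, vc]
    (by
      intro x y hxy
      fin_cases x <;> fin_cases y <;> simp_all)
    (by
      intro x
      fin_cases x
      · exact ⟨hX (hR hr), hrF, hrB⟩
      · exact ⟨hX hva, hva'⟩
      · exact ⟨hX hvb, hvb'⟩
      · exact ⟨hX hvc, hvc'⟩)
  fin_cases i
  · exact hi (hR hr)
  · exact hi hva
  · exact hi hvb
  · exact hi hvc

theorem al_succ {k : ℕ} {X R : Finset (Lab d)} (hX : X ⊆ LS (wd d k)) (hR : R ⊆ X)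
    (hRc : R.card = d + 1)
    (H : ∀ w ∈ wd d k, ∀ (g : Fin 4 → Option (Fin d)) (x : Fin 4 → Lab d), Function.Injective g →
      (∀ i, Side (LS (wd d k)) w (g i) (x i)) → ∃ i, x i ∉ X)
    {j : ℕ} (hj : j < k) : (Al X (j + 1)).card ≤ 2 * (Al X j).card + d * (d + 1) := by
  classical
  have h1 : Al X (j + 1) ⊆ (Al X j).biUnion (fun w => (ch X w).image (fun i => i :: w)) := by
    intro w' hw'
    obtain ⟨hl, v, hv, hv'⟩ := mem_Al.1 hw'
    cases w' with
    | nil => simp at hl
    | cons i w =>
      rw [Finset.mem_biUnion]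
      refine ⟨w, mem_Al.2 ⟨by simpa using hl, v, hv, inBr_of_cons hv'⟩, ?_⟩
      rw [Finset.mem_image]
      exact ⟨i, mem_ch.2 ⟨v, hv, hv'⟩, rfl⟩
  have h2 : (Al X (j + 1)).card ≤ ∑ w ∈ Al X j, (ch X w).card := by
    refine (Finset.card_le_card h1).trans (Finset.card_biUnion_le.trans ?_)
    exact Finset.sum_le_sum (fun w _ => Finset.card_image_le)
  have h3 : ∀ w ∈ Al X j, (ch X w).card ≤ 2 + (if w ∈ R.image (wordOf j) then d else 0) := by
    intro w hw
    by_cases hs : w ∈ R.image (wordOf j)
    · rw [if_pos hs]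
      have : (ch X w).card ≤ (Finset.univ : Finset (Fin d)).card :=
        Finset.card_le_card (Finset.subset_univ _)
      rw [Finset.card_univ, Fintype.card_fin] at this
      omega
    · rw [if_neg hs]
      exact ch_le hX hR hRc H hj (mem_Al.1 hw).1 hs
  have h4 : ∑ w ∈ Al X j, (2 + (if w ∈ R.image (wordOf j) then d else 0)) =
      2 * (Al X j).card + d * ((Al X j).filter (fun w => w ∈ R.image (wordOf j))).card := by
    rw [Finset.sum_add_distrib, Finset.sum_const, smul_eq_mul, mul_comm, ← Finset.sum_filter,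
      Finset.sum_const, smul_eq_mul, mul_comm _ d]
  have h5 : ((Al X j).filter (fun w => w ∈ R.image (wordOf j))).card ≤ d + 1 := by
    have h6 : (Al X j).filter (fun w => w ∈ R.image (wordOf j)) ⊆ R.image (wordOf j) := by
      intro w hw
      exact (Finset.mem_filter.1 hw).2
    exact ((Finset.card_le_card h6).trans Finset.card_image_le).trans hRc.le
  calc (Al X (j + 1)).card ≤ ∑ w ∈ Al X j, (ch X w).card := h2
    _ ≤ ∑ w ∈ Al X j, (2 + (if w ∈ R.image (wordOf j) then d else 0)) := Finset.sum_le_sum h3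
    _ = 2 * (Al X j).card + d * ((Al X j).filter (fun w => w ∈ R.image (wordOf j))).card := h4
    _ ≤ 2 * (Al X j).card + d * (d + 1) := by
        have := Nat.mul_le_mul_left d h5
        omega

theorem stmCount : StmCount := by
  classical
  intro d hd
  refine ⟨d + 2 + d * (d + 1), ?_⟩
  intro k X hX H
  rcases Nat.lt_or_ge d X.card with hc | hc
  · obtain ⟨R, hR, hRc⟩ := Finset.exists_subset_card_eq (s := X) (n := d + 1) (by omega)
    have hA : ∀ j, j ≤ k → (Al X j).card + d * (d + 1) ≤ (1 + d * (d + 1)) * 2 ^ j := by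
      intro j
      induction j with
      | zero =>
        intro _
        have := al_zero X
        simp
        omega
      | succ j ih =>
        intro hjk
        have h1 := al_succ hX hR hRc H (j := j) (by omega)
        have h2 := ih (by omega)
        rw [pow_succ]
        nlinarith
    have hsub : X ⊆ T0 d ∪ ((Finset.range k).biUnion (fun j => Al X j)).image Lab.apx := by
      intro v hv
      rcases Finset.mem_union.1 (hX hv) with h | h
      · exact Finset.mem_union_left _ h
      · obtain ⟨w, hw, rfl⟩ := Finset.mem_image.1 h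
        refine Finset.mem_union_right _ (Finset.mem_image_of_mem _ ?_)
        rw [Finset.mem_biUnion]
        exact ⟨w.length, Finset.mem_range.2 (mem_wd.1 hw), mem_Al.2 ⟨rfl, _, hv, [], by simp⟩⟩
    have hcard : X.card ≤ (d + 1) + ∑ j ∈ Finset.range k, (Al X j).card := by
      refine (Finset.card_le_card hsub).trans ((Finset.card_union_le _ _).trans ?_)
      rw [Pool.Agent.V8H1.GJ.card_T0]
      have := (Finset.card_image_le (s := (Finset.range k).biUnion (fun j => Al X j))
        (f := Lab.apx)).trans Finset.card_biUnion_le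
      omega
    have hsum : ∑ j ∈ Finset.range k, (Al X j).card ≤ (1 + d * (d + 1)) * 2 ^ k := by
      calc ∑ j ∈ Finset.range k, (Al X j).card
          ≤ ∑ j ∈ Finset.range k, (1 + d * (d + 1)) * 2 ^ j := by
            refine Finset.sum_le_sum (fun j hj => ?_)
            have := hA j (Finset.mem_range.1 hj).le
            omega
        _ = (1 + d * (d + 1)) * ∑ j ∈ Finset.range k, 2 ^ j := by rw [Finset.mul_sum]
        _ ≤ (1 + d * (d + 1)) * 2 ^ k := by
            refine Nat.mul_le_mul_left _ ?_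
            rw [Nat.geomSum_eq (by norm_num)]
            simp
    have h2k : 1 ≤ 2 ^ k := Nat.one_le_two_pow
    nlinarith
  · have h2k : 1 ≤ 2 ^ k := Nat.one_le_two_pow
    calc X.card ≤ (d + 2 + d * (d + 1)) * 1 := by
          have : 0 ≤ d * (d + 1) := Nat.zero_le _
          omega
      _ ≤ (d + 2 + d * (d + 1)) * 2 ^ k := Nat.mul_le_mul_left _ h2k

end Pool.Agent.V8H33.GJ
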