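import Mathlib

set_option autoImplicit false

namespace Pool.Agent.V8H33.GJ

/-- Euclidean space of dimension d. -/
abbrev E (d : ℕ) := EuclideanSpace ℝ (Fin d)

/-- `A` is the label set of a face (possibly the whole polytope) of the polytope
with labelled points `p i`, `i ∈ L`: the points where some linear functional is maximal. -/
def Face {ι : Type*} {d : ℕ} (p : ι → E d) (L A : Finset ι) : Prop :=
  ∃ l : E d →L[ℝ] ℝ, ∀ i, i ∈ A ↔ (i ∈ L ∧ ∀ j ∈ L, l (p j) ≤ l (p i))

/-- Labels of the vertices of the iterated stacked polytope. `base j`, `opp` are the vertices of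
the initial simplex, `apx w` is the apex stacked over the facet of the word `w`. -/
inductive Lab (d : ℕ) where
  | base (j : Fin d) : Lab d
  | opp : Lab d
  | apx (w : List (Fin d)) : Lab d
  deriving DecidableEq

/-- The ordered vertex labels of the facet of the word `w`; the last letter of the history is the
head of the list: the facet of `i :: w` arises from the facet of `w` by replacing its `i`-th
vertex by the apex over the facet of `w`. -/
def Fc {d : ℕ} : List (Fin d) → Fin d → Lab d
  | [] => Lab.base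
  | i :: w => Function.update (Fc w) i (Lab.apx w)

/-- Vertex set of the facet of `w`. -/
def FS {d : ℕ} (w : List (Fin d)) : Finset (Lab d) := Finset.univ.image (Fc w)

/-- Vertex set of the simplex stacked over the facet of `w`. -/
def TS {d : ℕ} (w : List (Fin d)) : Finset (Lab d) := insert (Lab.apx w) (FS w)

/-- Vertex set of the initial simplex. -/
def T0 (d : ℕ) : Finset (Lab d) := insert Lab.opp (Finset.univ.image Lab.base)

/-- Vertex labels when the facets of the words in `S` have been stacked. -/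
def LS {d : ℕ} (S : Finset (List (Fin d))) : Finset (Lab d) := T0 d ∪ S.image Lab.apx

/-- The words of length less than `k`. -/
def wd (d : ℕ) : ℕ → Finset (List (Fin d))
  | 0 => ∅
  | k + 1 => insert [] ((Finset.univ ×ˢ wd d k).image (fun x => x.1 :: x.2))

/-- `v` is a label in the branch of `w`: the apex of a word having `w` as a suffix. -/
def InBr {d : ℕ} (w : List (Fin d)) (v : Lab d) : Prop := ∃ u, v = Lab.apx (u ++ w)

/-- The side of the simplex `TS w` opposite to one of its vertices: `none` stands for the apex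
(the opposite facet is the facet of `w`, the side consists of all vertices outside the branch),
`some i` for the vertex `Fc w i` (the opposite facet is that of `i :: w`). -/
def Side {d : ℕ} (L : Finset (Lab d)) (w : List (Fin d)) : Option (Fin d) → Lab d → Prop
  | none, v => v ∈ L ∧ v ∉ FS w ∧ ¬ InBr w v
  | some i, v => v ∈ L ∧ InBr (i :: w) v

/-- The vertex of `TS w` opposite to a side. -/
def Tv {d : ℕ} (w : List (Fin d)) : Option (Fin d) → Lab d
  | none => Lab.apx w
  | some i => Fc w i

/-- Combinatorial data of the iterated stacked polytope, in terms of label sets of faces. -/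
structure Data (d k : ℕ) (p : Lab d → E d) : Prop where
  notface : ∀ w ∈ wd d k, ¬ Face p (LS (wd d k)) (FS w)
  leaf : ∀ w : List (Fin d), w.length = k → Face p (LS (wd d k)) (FS w)
  small0 : ∀ A, A ⊆ T0 d → A.Nonempty → A.card ≤ d - 1 → Face p (LS (wd d k)) A
  small : ∀ w ∈ wd d k, ∀ A, A ⊆ TS w → A.Nonempty → A.card ≤ d - 1 → Face p (LS (wd d k)) A

/-! ### Statements of the parts -/

/-- STACK: stacking one facet. -/
def StmStack : Prop := ∀ (ι : Type) (_ : DecidableEq ι) (d : ℕ) (p : ι → E d) (L F : Finset ι) (x : ι),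
  2 ≤ d → x ∉ L → Face p L F → F ≠ L → F.card = d →
  AffineIndependent ℝ (fun i : F => p i) →
  affineSpan ℝ (p '' (L : Set ι)) = ⊤ →
  ∃ z : E d, ∀ A : Finset ι,
    (Face (Function.update p x z) (insert x L) A ∧ A ≠ insert x L) ↔
      ((Face p L A ∧ A ≠ L ∧ A ≠ F) ∨ ∃ B, B ⊂ F ∧ A = insert x B)

/-- TREE: existence of the iterated stacked polytope. The last clause says that it is simplicial. -/
def StmTree : Prop := ∀ d k : ℕ, 3 ≤ d → ∃ p : Lab d → E d, Data d k p ∧
  affineSpan ℝ (p '' (LS (wd d k) : Set (Lab d))) = ⊤ ∧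
  ∀ A, Face p (LS (wd d k)) A → A ≠ LS (wd d k) → A.card ≤ d ∧
    ∀ B, B ⊆ A → B.Nonempty → Face p (LS (wd d k)) B

/-- GEO: in every realization of the face data, the four-sides configuration has the coordinates
needed for `StmAna`. -/
def StmGeo : Prop := ∀ (d k : ℕ) (q : Lab d → E d), 3 ≤ d → Data d k q →
  ∀ w ∈ wd d k, ∀ (g : Fin 4 → Option (Fin d)) (x : Fin 4 → Lab d), Function.Injective g →
    (∀ i, Side (LS (wd d k)) w (g i) (x i)) →
    ∃ lam : Fin 4 → Option (Fin d) → ℝ,
      (∀ i, ∑ j, lam i j = 1) ∧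
      (∀ i, q (x i) = ∑ j, lam i j • q (Tv w j)) ∧
      (∀ i, lam i (g i) < 0) ∧ (∀ i j, j ≠ g i → 0 < lam i j) ∧
      (∀ i k, i ≠ k → lam i (g i) * lam k (g k) < lam i (g k) * lam k (g i)) ∧
      Function.Injective (fun j => q (Tv w j))

/-- ANA: no simplex inside a closed ball has four facets with compatible apexes on the sphere. -/
def StmAna : Prop := ∀ (d : ℕ) (κ : Type) (_ : Fintype κ) (_ : DecidableEq κ) (t : κ → E d)
  (c : E d) (r : ℝ) (g : Fin 4 → κ) (x : Fin 4 → E d) (lam : Fin 4 → κ → ℝ),
  0 < r → (∀ j, dist (t j) c ≤ r) → Function.Injective t → Function.Injective g →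
  (∀ i, dist (x i) c = r) →
  (∀ i, ∑ j, lam i j = 1) → (∀ i, x i = ∑ j, lam i j • t j) →
  (∀ i, lam i (g i) < 0) → (∀ i j, j ≠ g i → 0 < lam i j) →
  (∀ i k, i ≠ k → lam i (g i) * lam k (g k) < lam i (g k) * lam k (g i)) → False

/-- COUNT: the combinatorial count. -/
def StmCount : Prop := ∀ d : ℕ, 3 ≤ d → ∃ C : ℕ, ∀ (k : ℕ) (X : Finset (Lab d)),
  X ⊆ LS (wd d k) →
  (∀ w ∈ wd d k, ∀ (g : Fin 4 → Option (Fin d)) (x : Fin 4 → Lab d), Function.Injective g →
    (∀ i, Side (LS (wd d k)) w (g i) (x i)) → ∃ i, x i ∉ X) →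
  X.card ≤ C * 2 ^ k

end Pool.Agent.V8H33.GJ
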