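import Pool.Agent.V8H33.GJ.AnaC
import Pool.Agent.V8H33.GJ.Defs

set_option autoImplicit false

namespace Pool.Agent.V8H33.GJ

/-- A linear isometry from a space of dimension at most three to Euclidean 3-space. -/
theorem exists_isom {d : ℕ} (S : Submodule ℝ (E d)) (hS : Module.finrank ℝ S ≤ 3) :
    Nonempty (S →ₗᵢ[ℝ] EuclideanSpace ℝ (Fin 3)) := by
  classical
  let b := stdOrthonormalBasis ℝ S
  let e := EuclideanSpace.basisFun (Fin 3) ℝ
  let f : S →ₗ[ℝ] EuclideanSpace ℝ (Fin 3) :=
    b.toBasis.constr ℝ (fun i => e (Fin.castLE hS i))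
  have hb : Orthonormal ℝ (b.toBasis : _ → S) := by
    rw [OrthonormalBasis.coe_toBasis]; exact b.orthonormal
  have hf : Orthonormal ℝ (f ∘ b.toBasis) := by
    have : f ∘ b.toBasis = fun i => e (Fin.castLE hS i) := by
      funext i
      simp only [Function.comp, f, Module.Basis.constr_basis]
    rw [this]
    exact e.orthonormal.comp _ (Fin.castLE_injective hS)
  exact ⟨f.isometryOfOrthonormal hb hf⟩

theorem stmAna : StmAna := by
  classical
  intro d κ _ _ t c r g x lam hr ht htinj hg hx hsum hxl hneg hlpos hcomp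
  set X : Fin 4 → E d := fun i => x i - c with hX
  set V : κ → E d := fun j => t j - c with hV
  have hXn : ∀ i, ‖X i‖ = r := fun i => by rw [← hx i, dist_eq_norm]
  have hVn : ∀ j, ‖V j‖ ≤ r := fun j => by rw [← dist_eq_norm]; exact ht j
  have hXV : ∀ i, X i = ∑ j, lam i j • V j := by
    intro i
    simp only [hX, hV, smul_sub, Finset.sum_sub_distrib]
    rw [← Finset.sum_smul, hsum i, one_smul, ← hxl i]
  have hin : ∀ i j, inner ℝ (X i) (V j) ≤ r ^ 2 := by
    intro i j
    have h1 := real_inner_le_norm (X i) (V j)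
    rw [hXn i] at h1
    have h2 := mul_le_mul_of_nonneg_left (hVn j) hr.le
    nlinarith
  have hz : ∀ i, ∑ j, lam i j * (r ^ 2 - inner ℝ (X i) (V j)) = 0 := by
    intro i
    have h1 : inner ℝ (X i) (X i) = r ^ 2 := by rw [real_inner_self_eq_norm_sq, hXn i]
    have h2 : inner ℝ (X i) (X i) = ∑ j, lam i j * inner ℝ (X i) (V j) := by
      have h3 : inner ℝ (X i) (∑ j, lam i j • V j) = ∑ j, lam i j * inner ℝ (X i) (V j) := by
        rw [inner_sum]
        exact Finset.sum_congr rfl (fun j _ => by rw [inner_smul_right])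
      rw [← hXV i] at h3
      exact h3
    have h3 : ∑ j, lam i j * (r ^ 2 - inner ℝ (X i) (V j)) =
        (∑ j, lam i j) * r ^ 2 - ∑ j, lam i j * inner ℝ (X i) (V j) := by
      rw [Finset.sum_mul, ← Finset.sum_sub_distrib]
      exact Finset.sum_congr rfl (fun j _ => by ring)
    rw [h3, hsum i, ← h2, h1]; ring
  set a : Fin 4 → Fin 4 → ℝ := fun i k => r ^ 2 - inner ℝ (X i) (V (g k)) with ha
  have ha0 : ∀ i k, 0 ≤ a i k := fun i k => sub_nonneg.mpr (hin i (g k))
  have hrest : ∀ i, (-lam i (g i)) * a i i =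
      ∑ j ∈ Finset.univ.erase (g i), lam i j * (r ^ 2 - inner ℝ (X i) (V j)) := by
    intro i
    have h1 := Finset.add_sum_erase Finset.univ
      (fun j => lam i j * (r ^ 2 - inner ℝ (X i) (V j))) (Finset.mem_univ (g i))
    rw [hz i] at h1
    simp only [ha]
    linarith
  have hpos : ∀ i, 0 < a i i := by
    intro i
    refine lt_of_le_of_ne (ha0 i i) ?_
    intro h0
    have h1 := hrest i
    rw [← h0, mul_zero] at h1
    have h2 := (Finset.sum_eq_zero_iff_of_nonneg (fun j hj => mul_nonneg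
      (hlpos i j (Finset.ne_of_mem_erase hj)).le (sub_nonneg.mpr (hin i j)))).mp h1.symm
    have h3 : ∀ j, j ≠ g i → V j = X i := by
      intro j hj
      have h4 := h2 j (Finset.mem_erase.mpr ⟨hj, Finset.mem_univ _⟩)
      rcases mul_eq_zero.mp h4 with h5 | h5
      · exact absurd h5 (hlpos i j hj).ne'
      · have h6 : inner ℝ (X i) (V j) = r ^ 2 := by linarith
        have h7 : ‖V j - X i‖ ^ 2 ≤ 0 := by
          rw [norm_sub_sq_real, real_inner_comm, h6, hXn i]
          have := hVn j
          have h8 := norm_nonneg (V j)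
          nlinarith
        have h8 : ‖V j - X i‖ = 0 := by
          have := sq_nonneg ‖V j - X i‖
          have h9 : ‖V j - X i‖ ^ 2 = 0 := le_antisymm h7 this
          exact pow_eq_zero_iff (by norm_num) |>.mp h9
        exact sub_eq_zero.mp (norm_eq_zero.mp h8)
    obtain ⟨k, l, hki, hli, hkl⟩ : ∃ k l : Fin 4, k ≠ i ∧ l ≠ i ∧ k ≠ l := by
      have hall : ∀ i' : Fin 4, ∃ k l : Fin 4, k ≠ i' ∧ l ≠ i' ∧ k ≠ l := by decide
      exact hall i
    have h4 := (h3 (g k) (fun h => hki (hg h))).trans (h3 (g l) (fun h => hli (hg h))).symm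
    have h5 : t (g k) = t (g l) := by
      simp only [hV] at h4
      exact sub_left_injective h4
    exact hkl (hg (htinj h5))
  have hrel : ∀ i, ∑ k, (if i = k then 0 else lam i (g k) * a i k) ≤ (-lam i (g i)) * a i i := by
    intro i
    rw [hrest i]
    have h1 : ∑ k, (if i = k then 0 else lam i (g k) * a i k) =
        ∑ k ∈ Finset.univ.erase i, lam i (g k) * a i k := by
      rw [← Finset.add_sum_erase Finset.univ _ (Finset.mem_univ i)]
      simp only [if_true, zero_add]
      refine Finset.sum_congr rfl (fun k hk => ?_)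
      rw [if_neg (Finset.ne_of_mem_erase hk).symm]
    have h2 : ∑ k ∈ Finset.univ.erase i, lam i (g k) * a i k =
        ∑ j ∈ (Finset.univ.erase i).image g, lam i j * (r ^ 2 - inner ℝ (X i) (V j)) := by
      rw [Finset.sum_image (fun _ _ _ _ h => hg h)]
    rw [h1, h2]
    refine Finset.sum_le_sum_of_subset_of_nonneg ?_ ?_
    · intro j hj
      obtain ⟨k, hk, rfl⟩ := Finset.mem_image.mp hj
      refine Finset.mem_erase.mpr ⟨fun h => Finset.ne_of_mem_erase hk (hg h), Finset.mem_univ _⟩
    · intro j hj _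
      exact mul_nonneg (hlpos i j (Finset.ne_of_mem_erase hj)).le (sub_nonneg.mpr (hin i j))
  -- the projection
  set S : Submodule ℝ (E d) := Submodule.span ℝ (Set.range (fun k : Fin 3 => X k.succ - X 0))
    with hS
  have hSfin : Module.finrank ℝ S ≤ 3 := by
    have := finrank_range_le_card (R := ℝ) (fun k : Fin 3 => X k.succ - X 0)
    simpa [Set.finrank] using this
  obtain ⟨Φ⟩ := exists_isom S hSfin
  have hmemS : ∀ i, X i - X 0 ∈ S := by
    intro i
    refine Fin.cases ?_ (fun k => ?_) i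
    · simp
    · exact Submodule.subset_span ⟨k, rfl⟩
  set P : E d → E d := fun v => S.starProjection v with hP
  have hPmem : ∀ v, P v ∈ S := fun v => S.starProjection_apply_mem v
  set c0 : E d := X 0 - P (X 0) with hc0
  have hdec : ∀ i, X i = c0 + P (X i) := by
    intro i
    have h1 : P (X i - X 0) = X i - X 0 := Submodule.starProjection_eq_self_iff.mpr (hmemS i)
    have h2 : P (X i - X 0) = P (X i) - P (X 0) := by simp only [hP, map_sub]
    rw [h2] at h1
    simp only [hc0]
    have h3 : X i = (P (X i) - P (X 0)) + X 0 := by rw [h1]; abel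
    calc X i = (P (X i) - P (X 0)) + X 0 := h3
      _ = X 0 - P (X 0) + P (X i) := by abel
  have horth : ∀ v w, w ∈ S → inner ℝ (v - P v) w = 0 := fun v w hw =>
    Submodule.starProjection_inner_eq_zero v w hw
  have hc0S : ∀ w, w ∈ S → inner ℝ c0 w = 0 := fun w hw => horth (X 0) w hw
  have hinPv : ∀ u, u ∈ S → ∀ v, inner ℝ u v = inner ℝ u (P v) := by
    intro u hu v
    have h1 := horth v u hu
    rw [inner_sub_left] at h1
    rw [real_inner_comm v u, real_inner_comm (P v) u]
    linarith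
  have hXV2 : ∀ i v, inner ℝ (X i) v = inner ℝ c0 v + inner ℝ (P (X i)) (P v) := by
    intro i v
    conv_lhs => rw [hdec i]
    rw [inner_add_left, hinPv _ (hPmem _) v]
  have hPn : ∀ i, ‖P (X i)‖ ^ 2 = r ^ 2 - ‖c0‖ ^ 2 := by
    intro i
    have h1 : ‖X i‖ ^ 2 = ‖c0‖ ^ 2 + ‖P (X i)‖ ^ 2 := by
      have h2 : inner ℝ c0 (P (X i)) = 0 := hc0S _ (hPmem _)
      conv_lhs => rw [hdec i]
      rw [norm_add_sq_real, h2]; ring
    rw [hXn i] at h1
    linarith
  have hnv : ∀ v, (inner ℝ c0 v) ^ 2 ≤ ‖c0‖ ^ 2 * (‖v‖ ^ 2 - ‖P v‖ ^ 2) := by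
    intro v
    have h1 : inner ℝ c0 v = inner ℝ c0 (v - P v) := by
      rw [inner_sub_right, hc0S _ (hPmem v), sub_zero]
    have h2 : ‖v - P v‖ ^ 2 = ‖v‖ ^ 2 - ‖P v‖ ^ 2 := by
      have h3 : ‖v‖ ^ 2 = ‖v - P v‖ ^ 2 + ‖P v‖ ^ 2 := by
        have h4 := horth v (P v) (hPmem v)
        have h5 : v = (v - P v) + P v := by abel
        conv_lhs => rw [h5]
        rw [norm_add_sq_real, h4]; ring
      linarith
    rw [h1, ← h2]
    have h3 := abs_real_inner_le_norm c0 (v - P v)
    have h4 := abs_nonneg (inner ℝ c0 (v - P v))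
    calc (inner ℝ c0 (v - P v)) ^ 2 = |inner ℝ c0 (v - P v)| ^ 2 := (sq_abs _).symm
      _ ≤ (‖c0‖ * ‖v - P v‖) ^ 2 := pow_le_pow_left₀ h4 h3 2
      _ = ‖c0‖ ^ 2 * ‖v - P v‖ ^ 2 := by ring
  set R : ℝ := r ^ 2 - ‖c0‖ ^ 2 with hR
  have hR0 : 0 ≤ R := by rw [← hPn 0]; positivity
  have hbpos : ∀ i, 0 < -lam i (g i) := fun i => by linarith [hneg i]
  have hβpos : ∀ i k : Fin 4, i ≠ k → 0 < lam i (g k) := fun i k hik =>
    hlpos i (g k) (fun h => hik (hg h).symm)
  have hcomp' : ∀ i k : Fin 4, i ≠ k →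
      (-lam i (g i)) * (-lam k (g k)) < lam i (g k) * lam k (g i) := by
    intro i k hik
    have := hcomp i k hik
    linarith
  rcases hR0.eq_or_lt with hRz | hRpos
  · -- all apexes coincide
    have hPz : ∀ i, P (X i) = 0 := by
      intro i
      have := hPn i
      rw [← hRz] at this
      exact norm_eq_zero.mp (pow_eq_zero_iff (by norm_num) |>.mp this)
    have haij : ∀ i k, a i k = a k k := by
      intro i k
      simp only [ha]
      rw [hXV2 i, hXV2 k, hPz i, hPz k]
    have h1 := hrel 0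
    have h2 := hrel 1
    have p0 := hpos 0
    have p1 := hpos 1
    have e1 : lam 0 (g 1) * a 1 1 ≤ (-lam 0 (g 0)) * a 0 0 := by
      refine le_trans ?_ h1
      rw [← haij 0 1]
      refine le_trans (le_of_eq ?_) (Finset.single_le_sum (f := fun k =>
        (if (0 : Fin 4) = k then 0 else lam 0 (g k) * a 0 k)) ?_ (Finset.mem_univ (1 : Fin 4)))
      · simp
      · intro k _
        split_ifs with hk
        · exact le_rfl
        · exact mul_nonneg (hβpos 0 k hk).le (ha0 0 k)
    have e2 : lam 1 (g 0) * a 0 0 ≤ (-lam 1 (g 1)) * a 1 1 := by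
      refine le_trans ?_ h2
      rw [← haij 1 0]
      refine le_trans (le_of_eq ?_) (Finset.single_le_sum (f := fun k =>
        (if (1 : Fin 4) = k then 0 else lam 1 (g k) * a 1 k)) ?_ (Finset.mem_univ (0 : Fin 4)))
      · simp
      · intro k _
        split_ifs with hk
        · exact le_rfl
        · exact mul_nonneg (hβpos 1 k hk).le (ha0 1 k)
    have e3 := mul_le_mul e1 e2 (mul_nonneg (hβpos 1 0 (by decide)).le p0.le)
      (mul_nonneg (hbpos 0).le p0.le)
    have e4 := hcomp' 0 1 (by decide)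
    have e5 : 0 < a 0 0 * a 1 1 := mul_pos p0 p1
    nlinarith
  · -- the main case
    set ρ : ℝ := Real.sqrt R with hρ
    have hρ2 : ρ ^ 2 = R := Real.sq_sqrt hR0
    have hρpos : 0 < ρ := Real.sqrt_pos.mpr hRpos
    let y : E d → EuclideanSpace ℝ (Fin 3) := fun v => Φ ⟨P v, hPmem v⟩
    have hyin : ∀ v w, inner ℝ (y v) (y w) = inner ℝ (P v) (P w) := by
      intro v w
      simp only [y]
      rw [Φ.inner_map_map]
      rfl
    have hyn : ∀ v, ‖y v‖ ^ 2 = ‖P v‖ ^ 2 := by
      intro v
      rw [← real_inner_self_eq_norm_sq, ← real_inner_self_eq_norm_sq, hyin]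
    have hprod : ∀ i k, ρ * ((r ^ 2 - inner ℝ c0 (V (g k))) / ρ) -
        inner ℝ (y (X i)) (y (V (g k))) = a i k := by
      intro i k
      rw [mul_div_cancel₀ _ hρpos.ne', hyin]
      simp only [ha]
      rw [hXV2 i]
      ring
    refine mink ρ (fun i => y (X i)) (fun k => y (V (g k)))
      (fun k => (r ^ 2 - inner ℝ c0 (V (g k))) / ρ) (fun i => -lam i (g i))
      (fun i k => lam i (g k)) hρpos ?_ ?_ ?_ hbpos hβpos ?_ hcomp'
    · intro i
      have h1 : ‖y (X i)‖ ^ 2 = ρ ^ 2 := by rw [hyn, hPn i, hρ2]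
      exact (sq_eq_sq₀ (norm_nonneg _) hρpos.le).mp h1
    · intro k
      rw [hyn, div_pow, hρ2, le_div_iff₀ hRpos]
      have h1 := hnv (V (g k))
      have h2 : ‖V (g k)‖ ^ 2 ≤ r ^ 2 := pow_le_pow_left₀ (norm_nonneg _) (hVn (g k)) 2
      set h := inner ℝ c0 (V (g k)) with hh
      set Y := ‖P (V (g k))‖ ^ 2 with hY
      set n0 := ‖c0‖ ^ 2 with hn0
      have hn00 : 0 ≤ n0 := by positivity
      have h3 : h ^ 2 ≤ n0 * (r ^ 2 - Y) :=
        le_trans h1 (mul_le_mul_of_nonneg_left (by linarith) hn00)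
      have hY0 : 0 ≤ Y := by positivity
      rcases hn00.eq_or_lt with hn | hn
      · have h4 : h = 0 := by
          rw [← hn] at h3
          have : h ^ 2 = 0 := le_antisymm (by linarith) (sq_nonneg h)
          exact pow_eq_zero_iff (by norm_num) |>.mp this
        have h5 : Y ≤ r ^ 2 := by
          have h6 : Y ≤ ‖V (g k)‖ ^ 2 := by
            have h7 := hinPv (P (V (g k))) (hPmem _) (V (g k))
            have h8 := real_inner_le_norm (P (V (g k))) (V (g k))
            rw [h7, real_inner_self_eq_norm_sq] at h8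
            have h9 := norm_nonneg (P (V (g k)))
            have h10 := norm_nonneg (V (g k))
            simp only [hY]
            by_contra hcon
            push Not at hcon
            have h11 : ‖V (g k)‖ < ‖P (V (g k))‖ := lt_of_pow_lt_pow_left₀ 2 h9 hcon
            nlinarith
          linarith
        rw [h4, hR, ← hn]
        nlinarith [sq_nonneg r]
      · have h4 : n0 * (Y * R) ≤ n0 * (r ^ 2 - h) ^ 2 := by
          have h5 : n0 * Y ≤ n0 * r ^ 2 - h ^ 2 := by linarith
          have h6 := mul_le_mul_of_nonneg_right h5 hR0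
          have h7 : (n0 * r ^ 2 - h ^ 2) * R ≤ n0 * (r ^ 2 - h) ^ 2 := by
            have h8 : n0 * (r ^ 2 - h) ^ 2 - (n0 * r ^ 2 - h ^ 2) * R = r ^ 2 * (h - n0) ^ 2 := by
              rw [hR]; ring
            have h9 : 0 ≤ r ^ 2 * (h - n0) ^ 2 := by positivity
            linarith
          linarith
        exact le_of_mul_le_mul_left h4 hn
    · intro i
      rw [hprod]
      exact hpos i
    · intro i
      simp only [hprod]
      exact hrel i

end Pool.Agent.V8H33.GJ
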