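import Mathlib

set_option autoImplicit false

namespace Pool.Agent.V8H33.GJ

/-- Four rank one idempotents: a nonzero vector whose norm is preserved. -/
theorem exists_vec (p q s u : Fin 4 → ℂ) (hA : ∀ i, p i * s i - q i * u i ≠ 0) :
    ∃ y : Fin 4 → ℂ, y ≠ 0 ∧
      ∑ i, ‖∑ j, (if i = j then 0 else (p i * s j - q i * u j) * (p j * s i - q j * u i) /
        ((p i * s i - q i * u i) * (p j * s j - q j * u j))) * y j‖ ^ 2 = ∑ i, ‖y i‖ ^ 2 := by
  classical
  -- linear map C^4 -> C^3
  let M : Matrix (Fin 3) (Fin 4) ℂ := ![fun j => s j * q j / (p j * s j - q j * u j),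
    fun j => u j * p j / (p j * s j - q j * u j),
    fun j => (s j * p j + u j * q j) / (p j * s j - q j * u j)]
  obtain ⟨y, hy0, hy⟩ : ∃ y : Fin 4 → ℂ, y ≠ 0 ∧ M.mulVec y = 0 := by
    have hlt : Module.finrank ℂ (Fin 3 → ℂ) < Module.finrank ℂ (Fin 4 → ℂ) := by simp
    have h := LinearMap.ker_ne_bot_of_finrank_lt (f := Matrix.mulVecLin M) hlt
    obtain ⟨y, hy, hy0⟩ := Submodule.exists_mem_ne_zero_of_ne_bot h
    exact ⟨y, hy0, by simpa using hy⟩
  refine ⟨y, hy0, ?_⟩
  have e1 : ∑ j, s j * q j / (p j * s j - q j * u j) * y j = 0 := by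
    have := congrFun hy 0
    simpa [Matrix.mulVec, dotProduct, M] using this
  have e2 : ∑ j, u j * p j / (p j * s j - q j * u j) * y j = 0 := by
    have := congrFun hy 1
    simpa [Matrix.mulVec, dotProduct, M] using this
  have e3 : ∑ j, (s j * p j + u j * q j) / (p j * s j - q j * u j) * y j = 0 := by
    have := congrFun hy 2
    simpa [Matrix.mulVec, dotProduct, M] using this
  set σ : ℂ := ∑ j, y j with hσ
  have e4 : ∑ j, (p j * s j - q j * u j) / (p j * s j - q j * u j) * y j = σ := by
    rw [hσ]
    exact Finset.sum_congr rfl (fun j _ => by rw [div_self (hA j), one_mul])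
  have e5 : ∑ j, s j * p j / (p j * s j - q j * u j) * y j = σ / 2 := by
    have : ∑ j, s j * p j / (p j * s j - q j * u j) * y j =
        (∑ j, (s j * p j + u j * q j) / (p j * s j - q j * u j) * y j +
          ∑ j, (p j * s j - q j * u j) / (p j * s j - q j * u j) * y j) / 2 := by
      rw [← Finset.sum_add_distrib, Finset.sum_div]
      exact Finset.sum_congr rfl (fun j _ => by ring)
    rw [this, e3, e4, zero_add]
  have e6 : ∑ j, u j * q j / (p j * s j - q j * u j) * y j = - (σ / 2) := by
    have : ∑ j, u j * q j / (p j * s j - q j * u j) * y j =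
        (∑ j, (s j * p j + u j * q j) / (p j * s j - q j * u j) * y j -
          ∑ j, (p j * s j - q j * u j) / (p j * s j - q j * u j) * y j) / 2 := by
      rw [← Finset.sum_sub_distrib, Finset.sum_div]
      exact Finset.sum_congr rfl (fun j _ => by ring)
    rw [this, e3, e4]; ring
  -- the full sum including the diagonal
  have full : ∀ i, ∑ j, (p i * s j - q i * u j) * (p j * s i - q j * u i) /
        ((p i * s i - q i * u i) * (p j * s j - q j * u j)) * y j = σ / 2 := by
    intro i
    have h1 : ∑ j, (p i * s j - q i * u j) * (p j * s i - q j * u i) /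
        ((p i * s i - q i * u i) * (p j * s j - q j * u j)) * y j =
        (p i * s i * (∑ j, s j * p j / (p j * s j - q j * u j) * y j)
          - p i * u i * (∑ j, s j * q j / (p j * s j - q j * u j) * y j)
          - q i * s i * (∑ j, u j * p j / (p j * s j - q j * u j) * y j)
          + q i * u i * (∑ j, u j * q j / (p j * s j - q j * u j) * y j)) /
          (p i * s i - q i * u i) := by
      rw [Finset.mul_sum, Finset.mul_sum, Finset.mul_sum, Finset.mul_sum,
        ← Finset.sum_sub_distrib, ← Finset.sum_sub_distrib, ← Finset.sum_add_distrib,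
        Finset.sum_div]
      refine Finset.sum_congr rfl (fun j _ => ?_)
      have h2 := hA i
      have h3 := hA j
      field_simp
      ring
    rw [h1, e1, e2, e5, e6]
    have h2 := hA i
    rw [div_eq_iff h2]
    ring
  have key : ∀ i, ∑ j, (if i = j then 0 else (p i * s j - q i * u j) * (p j * s i - q j * u i) /
        ((p i * s i - q i * u i) * (p j * s j - q j * u j))) * y j = σ / 2 - y i := by
    intro i
    rw [← full i, eq_sub_iff_add_eq]
    have : y i = ∑ j, (if i = j then y j else 0) := by simp
    rw [this, ← Finset.sum_add_distrib]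
    refine Finset.sum_congr rfl (fun j _ => ?_)
    by_cases hij : i = j
    · subst hij
      have h2 := hA i
      simp only [if_true, zero_mul, zero_add]
      rw [div_self (mul_ne_zero h2 h2), one_mul]
    · simp only [hij, if_false, add_zero]
  simp only [key]
  -- norms
  have hn : ∀ i, ‖σ / 2 - y i‖ ^ 2 = ‖σ‖ ^ 2 / 4 - (σ.re * (y i).re + σ.im * (y i).im)
      + ‖y i‖ ^ 2 := by
    intro i
    rw [Complex.sq_norm, Complex.sq_norm, Complex.sq_norm, Complex.normSq_apply,
      Complex.normSq_apply, Complex.normSq_apply]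
    have : (σ / 2 - y i).re = σ.re / 2 - (y i).re := by simp
    have h' : (σ / 2 - y i).im = σ.im / 2 - (y i).im := by simp
    rw [this, h']; ring
  simp only [hn]
  rw [Finset.sum_add_distrib, Finset.sum_sub_distrib, Finset.sum_add_distrib, ← Finset.mul_sum,
    ← Finset.mul_sum, ← Complex.re_sum, ← Complex.im_sum, ← hσ, Complex.sq_norm,
    Complex.normSq_apply]
  simp
  ring

end Pool.Agent.V8H33.GJ
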