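import Pool.Agent.V8H33.GJ.AnaA

set_option autoImplicit false

namespace Pool.Agent.V8H33.GJ

/-- The contradiction from the four relations. -/
theorem four_rel (p q s u : Fin 4 → ℂ) (a : Fin 4 → Fin 4 → ℝ) (b : Fin 4 → ℝ)
    (β : Fin 4 → Fin 4 → ℝ)
    (hd : ∀ i, 2 * ‖p i * s i - q i * u i‖ ^ 2 = a i i)
    (ho : ∀ i j, 2 * ‖p i * s j - q i * u j‖ ^ 2 ≤ a i j)
    (hpos : ∀ i, 0 < a i i) (hb : ∀ i, 0 < b i) (hβ : ∀ i j, i ≠ j → 0 < β i j)
    (hrel : ∀ i, ∑ j, (if i = j then 0 else β i j * a i j) ≤ b i * a i i)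
    (hcomp : ∀ i j, i ≠ j → b i * b j < β i j * β j i) : False := by
  classical
  have hA : ∀ i, p i * s i - q i * u i ≠ 0 := by
    intro i h
    have h1 := hd i
    have h2 := hpos i
    rw [h] at h1
    simp at h1
    linarith
  have ha0 : ∀ i j, 0 ≤ a i j := fun i j => le_trans (by positivity) (ho i j)
  obtain ⟨y, hy0, hy⟩ := exists_vec p q s u hA
  -- the constant theta
  obtain ⟨θ, hθ1, hθ⟩ : ∃ θ : ℝ, θ < 1 ∧ ∀ i j, i ≠ j → b i * b j ≤ θ * (β i j * β j i) := by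
    let f : Fin 4 × Fin 4 → ℝ := fun x => if x.1 = x.2 then 0 else
      b x.1 * b x.2 / (β x.1 x.2 * β x.2 x.1)
    obtain ⟨x0, -, hx0⟩ := Finset.exists_max_image Finset.univ f ⟨(0, 0), Finset.mem_univ _⟩
    refine ⟨f x0, ?_, ?_⟩
    · by_cases h : x0.1 = x0.2
      · simp only [f, h, if_true]; norm_num
      · simp only [f, h, if_false]
        rw [div_lt_one (mul_pos (hβ _ _ h) (hβ _ _ (Ne.symm h)))]
        exact hcomp _ _ h
    · intro i j hij
      have := hx0 (i, j) (Finset.mem_univ _)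
      have h2 : f (i, j) = b i * b j / (β i j * β j i) := by simp [f, hij]
      rw [h2, div_le_iff₀ (mul_pos (hβ _ _ hij) (hβ _ _ (Ne.symm hij)))] at this
      exact this
  have hθ0 : 0 < θ := by
    have h1 := hθ 0 1 (by decide)
    have h2 := mul_pos (hb 0) (hb 1)
    have h3 := mul_pos (hβ 0 1 (by decide)) (hβ 1 0 (by decide))
    by_contra h
    push Not at h
    nlinarith
  -- r
  set r : Fin 4 → Fin 4 → ℝ := fun i j => if i = j then 0 else β i j * a i j / (b i * a i i)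
    with hr
  have hr0 : ∀ i j, 0 ≤ r i j := by
    intro i j
    simp only [hr]
    split_ifs with h
    · exact le_rfl
    · exact div_nonneg (mul_nonneg (hβ i j h).le (ha0 i j)) (mul_pos (hb i) (hpos i)).le
  have hrs : ∀ i, ∑ j, r i j ≤ 1 := by
    intro i
    have h1 : ∑ j, r i j = (∑ j, (if i = j then 0 else β i j * a i j)) / (b i * a i i) := by
      rw [Finset.sum_div]
      refine Finset.sum_congr rfl (fun j _ => ?_)
      simp only [hr]
      split_ifs <;> simp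
    rw [h1, div_le_one (mul_pos (hb i) (hpos i))]
    exact hrel i
  set K : Fin 4 → Fin 4 → ℂ := fun i j => if i = j then 0 else
    (p i * s j - q i * u j) * (p j * s i - q j * u i) /
        ((p i * s i - q i * u i) * (p j * s j - q j * u j)) with hK
  have hKr : ∀ i j, ‖K i j‖ ^ 2 ≤ θ * (r i j * r j i) := by
    intro i j
    by_cases hij : i = j
    · subst hij
      simp [hK, hr]
    · have hji : ¬ j = i := fun h => hij h.symm
      have e1 : ‖K i j‖ ^ 2 = (2 * ‖p i * s j - q i * u j‖ ^ 2) *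
          (2 * ‖p j * s i - q j * u i‖ ^ 2) / (a i i * a j j) := by
        simp only [hK, hij, if_false]
        rw [norm_div, norm_mul, norm_mul, ← hd i, ← hd j, div_pow, mul_pow, mul_pow]
        have h1 : ‖p i * s i - q i * u i‖ ≠ 0 := norm_ne_zero_iff.mpr (hA i)
        have h2 : ‖p j * s j - q j * u j‖ ≠ 0 := norm_ne_zero_iff.mpr (hA j)
        field_simp
      have e2 : (2 * ‖p i * s j - q i * u j‖ ^ 2) * (2 * ‖p j * s i - q j * u i‖ ^ 2) ≤
          a i j * a j i :=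
        mul_le_mul (ho i j) (ho j i) (by positivity) (ha0 i j)
      have e3 : θ * (r i j * r j i) =
          θ * (β i j * β j i) * (a i j * a j i) / ((b i * b j) * (a i i * a j j)) := by
        simp only [hr, hij, hji, if_false]
        have h1 := (hb i).ne'
        have h2 := (hb j).ne'
        have h3 := (hpos i).ne'
        have h4 := (hpos j).ne'
        field_simp
      rw [e1, e3, div_le_div_iff₀ (mul_pos (hpos i) (hpos j))
        (mul_pos (mul_pos (hb i) (hb j)) (mul_pos (hpos i) (hpos j)))]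
      have h5 := hθ i j hij
      have h6 : 0 < a i i * a j j := mul_pos (hpos i) (hpos j)
      have h7 : 0 ≤ a i j * a j i := mul_nonneg (ha0 i j) (ha0 j i)
      have h8 : 0 < b i * b j := mul_pos (hb i) (hb j)
      calc (2 * ‖p i * s j - q i * u j‖ ^ 2) * (2 * ‖p j * s i - q j * u i‖ ^ 2) *
            ((b i * b j) * (a i i * a j j))
          ≤ (a i j * a j i) * ((b i * b j) * (a i i * a j j)) :=
            mul_le_mul_of_nonneg_right e2 (mul_pos h8 h6).le
        _ = (b i * b j) * ((a i j * a j i) * (a i i * a j j)) := by ring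
        _ ≤ (θ * (β i j * β j i)) * ((a i j * a j i) * (a i i * a j j)) :=
            mul_le_mul_of_nonneg_right h5 (mul_nonneg h7 h6.le)
        _ = θ * (β i j * β j i) * (a i j * a j i) * (a i i * a j j) := by ring
  have hKr' : ∀ i j, ‖K i j‖ ≤ Real.sqrt (r i j) * Real.sqrt (θ * r j i) := by
    intro i j
    rw [← Real.sqrt_mul (hr0 i j)]
    apply Real.le_sqrt_of_sq_le
    calc ‖K i j‖ ^ 2 ≤ θ * (r i j * r j i) := hKr i j
      _ = r i j * (θ * r j i) := by ring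
  have hrow : ∀ i, ‖∑ j, K i j * y j‖ ^ 2 ≤ θ * ∑ j, r j i * ‖y j‖ ^ 2 := by
    intro i
    have h1 : ‖∑ j, K i j * y j‖ ≤ ∑ j, Real.sqrt (r i j) * (Real.sqrt (θ * r j i) * ‖y j‖) := by
      refine le_trans (norm_sum_le _ _) (Finset.sum_le_sum (fun j _ => ?_))
      rw [norm_mul, ← mul_assoc]
      exact mul_le_mul_of_nonneg_right (hKr' i j) (norm_nonneg _)
    have h2 : (∑ j, Real.sqrt (r i j) * (Real.sqrt (θ * r j i) * ‖y j‖)) ^ 2 ≤
        (∑ j, Real.sqrt (r i j) ^ 2) * (∑ j, (Real.sqrt (θ * r j i) * ‖y j‖) ^ 2) :=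
      Finset.sum_mul_sq_le_sq_mul_sq _ _ _
    have h3 : ∑ j, Real.sqrt (r i j) ^ 2 ≤ 1 := by
      refine le_trans (le_of_eq ?_) (hrs i)
      exact Finset.sum_congr rfl (fun j _ => Real.sq_sqrt (hr0 i j))
    have h4 : ∑ j, (Real.sqrt (θ * r j i) * ‖y j‖) ^ 2 = θ * ∑ j, r j i * ‖y j‖ ^ 2 := by
      rw [Finset.mul_sum]
      refine Finset.sum_congr rfl (fun j _ => ?_)
      rw [mul_pow, Real.sq_sqrt (mul_nonneg hθ0.le (hr0 j i))]
      ring
    have h5 : 0 ≤ θ * ∑ j, r j i * ‖y j‖ ^ 2 :=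
      mul_nonneg hθ0.le (Finset.sum_nonneg (fun j _ => mul_nonneg (hr0 j i) (by positivity)))
    calc ‖∑ j, K i j * y j‖ ^ 2
        ≤ (∑ j, Real.sqrt (r i j) * (Real.sqrt (θ * r j i) * ‖y j‖)) ^ 2 :=
          pow_le_pow_left₀ (norm_nonneg _) h1 2
      _ ≤ (∑ j, Real.sqrt (r i j) ^ 2) * (∑ j, (Real.sqrt (θ * r j i) * ‖y j‖) ^ 2) := h2
      _ ≤ 1 * (θ * ∑ j, r j i * ‖y j‖ ^ 2) := by
          rw [h4]
          exact mul_le_mul_of_nonneg_right h3 h5
      _ = θ * ∑ j, r j i * ‖y j‖ ^ 2 := one_mul _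
  have htot : ∑ i, ‖∑ j, K i j * y j‖ ^ 2 ≤ θ * ∑ i, ‖y i‖ ^ 2 := by
    calc ∑ i, ‖∑ j, K i j * y j‖ ^ 2 ≤ ∑ i, θ * ∑ j, r j i * ‖y j‖ ^ 2 :=
          Finset.sum_le_sum (fun i _ => hrow i)
      _ = θ * ∑ j, (∑ i, r j i) * ‖y j‖ ^ 2 := by
          rw [← Finset.mul_sum, Finset.sum_comm]
          congr 1
          exact Finset.sum_congr rfl (fun j _ => by rw [Finset.sum_mul])
      _ ≤ θ * ∑ j, ‖y j‖ ^ 2 := by
          refine mul_le_mul_of_nonneg_left (Finset.sum_le_sum (fun j _ => ?_)) hθ0.le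
          calc (∑ i, r j i) * ‖y j‖ ^ 2 ≤ 1 * ‖y j‖ ^ 2 :=
                mul_le_mul_of_nonneg_right (hrs j) (by positivity)
            _ = ‖y j‖ ^ 2 := one_mul _
  have hypos : 0 < ∑ i, ‖y i‖ ^ 2 := by
    obtain ⟨i, hi⟩ : ∃ i, y i ≠ 0 := by
      by_contra h
      push Not at h
      exact hy0 (funext h)
    refine Finset.sum_pos' (fun j _ => by positivity) ⟨i, Finset.mem_univ _, ?_⟩
    have := norm_pos_iff.mpr hi
    positivity
  have hy' : ∑ i, ‖∑ j, K i j * y j‖ ^ 2 = ∑ i, ‖y i‖ ^ 2 := hy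
  rw [hy'] at htot
  nlinarith

end Pool.Agent.V8H33.GJ
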