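import Pool.Agent.V8H33.GJ.AnaB

set_option autoImplicit false

namespace Pool.Agent.V8H33.GJ

/-- The spinor of a null vector of Minkowski space. -/
theorem spinor (s y1 y2 y3 : ℝ) (hs : 0 ≤ s) (h : s ^ 2 = y1 ^ 2 + y2 ^ 2 + y3 ^ 2) :
    ∃ p q : ℂ, s = (p.re ^ 2 + p.im ^ 2) + (q.re ^ 2 + q.im ^ 2) ∧
      y3 = (p.re ^ 2 + p.im ^ 2) - (q.re ^ 2 + q.im ^ 2) ∧
      y1 = 2 * (p.re * q.re + p.im * q.im) ∧ y2 = 2 * (p.re * q.im - p.im * q.re) := by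
  by_cases hc : s + y3 ≤ 0
  · have h0 : 0 ≤ s - y3 := by linarith
    have hz : (s + y3) * (s - y3) = y1 ^ 2 + y2 ^ 2 := by linear_combination h
    have hle : (s + y3) * (s - y3) ≤ 0 := mul_nonpos_of_nonpos_of_nonneg hc h0
    have h1 : y1 = 0 := by nlinarith [sq_nonneg y1, sq_nonneg y2]
    have h2 : y2 = 0 := by nlinarith [sq_nonneg y1, sq_nonneg y2]
    have h3 : y3 = - s := by
      have h4 : s ^ 2 = y3 ^ 2 := by rw [h, h1, h2]; ring
      have h5 : (s - y3) * (s + y3) = 0 := by linear_combination h4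
      rcases mul_eq_zero.mp h5 with h6 | h6
      · have : y3 = s := by linarith
        have : s = 0 := by linarith
        linarith
      · linarith
    refine ⟨0, (Real.sqrt s : ℂ), ?_, ?_, ?_, ?_⟩
    · simp [Real.sq_sqrt hs]
    · simp [Real.sq_sqrt hs, h3]
    · simp [h1]
    · simp [h2]
  · push Not at hc
    set c : ℝ := Real.sqrt ((s + y3) / 2) with hcdef
    have hc2 : c ^ 2 = (s + y3) / 2 := Real.sq_sqrt (by linarith)
    have hcpos : 0 < c := Real.sqrt_pos.mpr (by linarith)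
    have hc0 : c ≠ 0 := hcpos.ne'
    have hq : (y1 / (2 * c)) ^ 2 + (y2 / (2 * c)) ^ 2 = (s - y3) / 2 := by
      have e : (y1 / (2 * c)) ^ 2 + (y2 / (2 * c)) ^ 2 = (y1 ^ 2 + y2 ^ 2) / (4 * c ^ 2) := by
        field_simp
        ring
      rw [e, hc2, div_eq_iff (by positivity)]
      linear_combination (-1) * h
    refine ⟨(c : ℂ), ⟨y1 / (2 * c), y2 / (2 * c)⟩, ?_, ?_, ?_, ?_⟩
    · simp only [Complex.ofReal_re, Complex.ofReal_im]
      rw [hq, hc2]; ring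
    · simp only [Complex.ofReal_re, Complex.ofReal_im]
      rw [hq, hc2]; ring
    · simp only [Complex.ofReal_re, Complex.ofReal_im]
      field_simp
      ring
    · simp only [Complex.ofReal_re, Complex.ofReal_im]
      field_simp
      ring

/-- Product of null vectors in terms of spinors. -/
theorem spinor_mul (s y1 y2 y3 s' z1 z2 z3 : ℝ) (p q p' q' : ℂ)
    (h1 : s = (p.re ^ 2 + p.im ^ 2) + (q.re ^ 2 + q.im ^ 2))
    (h2 : y3 = (p.re ^ 2 + p.im ^ 2) - (q.re ^ 2 + q.im ^ 2))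
    (h3 : y1 = 2 * (p.re * q.re + p.im * q.im)) (h4 : y2 = 2 * (p.re * q.im - p.im * q.re))
    (k1 : s' = (p'.re ^ 2 + p'.im ^ 2) + (q'.re ^ 2 + q'.im ^ 2))
    (k2 : z3 = (p'.re ^ 2 + p'.im ^ 2) - (q'.re ^ 2 + q'.im ^ 2))
    (k3 : z1 = 2 * (p'.re * q'.re + p'.im * q'.im))
    (k4 : z2 = 2 * (p'.re * q'.im - p'.im * q'.re)) :
    2 * ‖p * q' - q * p'‖ ^ 2 = s * s' - (y1 * z1 + y2 * z2 + y3 * z3) := by
  subst h1 h2 h3 h4 k1 k2 k3 k4
  rw [Complex.sq_norm, Complex.normSq_apply]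
  simp only [Complex.sub_re, Complex.sub_im, Complex.mul_re, Complex.mul_im]
  ring

/-- The reduced form in Minkowski space of signature (1,3): null vectors `(ρ, ω i)`, causal
vectors `(s j, y j)`. -/
theorem mink (ρ : ℝ) (ω y : Fin 4 → EuclideanSpace ℝ (Fin 3)) (s : Fin 4 → ℝ)
    (b : Fin 4 → ℝ) (β : Fin 4 → Fin 4 → ℝ) (hρ : 0 < ρ) (hω : ∀ i, ‖ω i‖ = ρ)
    (hc : ∀ j, ‖y j‖ ^ 2 ≤ s j ^ 2)
    (hpos : ∀ i, 0 < ρ * s i - inner ℝ (ω i) (y i))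
    (hb : ∀ i, 0 < b i) (hβ : ∀ i j, i ≠ j → 0 < β i j)
    (hrel : ∀ i, ∑ j, (if i = j then 0 else β i j * (ρ * s j - inner ℝ (ω i) (y j))) ≤
      b i * (ρ * s i - inner ℝ (ω i) (y i)))
    (hcomp : ∀ i j, i ≠ j → b i * b j < β i j * β j i) : False := by
  classical
  -- nullization
  set τ : Fin 4 → ℝ := fun j => (s j ^ 2 - ‖y j‖ ^ 2) / (2 * (ρ * s j - inner ℝ (ω j) (y j)))
    with hτ
  have hτ0 : ∀ j, 0 ≤ τ j := fun j => div_nonneg (by linarith [hc j]) (by linarith [hpos j])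
  have hτe : ∀ j, 2 * τ j * (ρ * s j - inner ℝ (ω j) (y j)) = s j ^ 2 - ‖y j‖ ^ 2 := by
    intro j
    have h0 := (hpos j).ne'
    simp only [hτ]
    generalize ρ * s j - inner ℝ (ω j) (y j) = A at h0 ⊢
    field_simp
  set s' : Fin 4 → ℝ := fun j => s j - τ j * ρ with hs'
  set y' : Fin 4 → EuclideanSpace ℝ (Fin 3) := fun j => y j - τ j • ω j with hy'
  have hyn : ∀ j, ‖y' j‖ ^ 2 = ‖y j‖ ^ 2 - 2 * τ j * inner ℝ (ω j) (y j) + τ j ^ 2 * ρ ^ 2 := by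
    intro j
    simp only [hy']
    rw [norm_sub_sq_real, norm_smul, inner_smul_right, hω j, real_inner_comm, mul_pow,
      Real.norm_eq_abs, sq_abs]
    ring
  have hnull : ∀ j, s' j ^ 2 = ‖y' j‖ ^ 2 := by
    intro j
    rw [hyn j]
    simp only [hs']
    linear_combination (-1) * hτe j
  have hin : ∀ i j, ρ * s' j - inner ℝ (ω i) (y' j) =
      ρ * s j - inner ℝ (ω i) (y j) - τ j * (ρ ^ 2 - inner ℝ (ω i) (ω j)) := by
    intro i j
    simp only [hs', hy']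
    rw [inner_sub_right, inner_smul_right]
    ring
  have hii : ∀ i, inner ℝ (ω i) (ω i) = ρ ^ 2 := by
    intro i
    rw [real_inner_self_eq_norm_sq, hω i]
  have hij : ∀ i j, inner ℝ (ω i) (ω j) ≤ ρ ^ 2 := by
    intro i j
    have := real_inner_le_norm (ω i) (ω j)
    rw [hω i, hω j] at this
    nlinarith
  have hdiag : ∀ i, ρ * s' i - inner ℝ (ω i) (y' i) = ρ * s i - inner ℝ (ω i) (y i) := by
    intro i
    rw [hin i i, hii i]; ring
  have hoff : ∀ i j, ρ * s' j - inner ℝ (ω i) (y' j) ≤ ρ * s j - inner ℝ (ω i) (y j) := by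
    intro i j
    rw [hin i j]
    have := mul_nonneg (hτ0 j) (sub_nonneg.mpr (hij i j))
    linarith
  have hs'0 : ∀ j, 0 ≤ s' j := by
    intro j
    by_contra hneg
    push Not at hneg
    have h1 : ‖y' j‖ = - s' j := by
      have h2 : ‖y' j‖ ^ 2 = (- s' j) ^ 2 := by rw [← hnull j]; ring
      exact (sq_eq_sq₀ (norm_nonneg _) (by linarith)).mp h2
    have h3 := abs_real_inner_le_norm (ω j) (y' j)
    rw [hω j, h1] at h3
    have h4 := hdiag j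
    have h5 := hpos j
    have h6 := neg_abs_le (inner ℝ (ω j) (y' j))
    nlinarith
  -- spinors
  have hn3 : ∀ v : EuclideanSpace ℝ (Fin 3), ‖v‖ ^ 2 = v 0 ^ 2 + v 1 ^ 2 + v 2 ^ 2 := by
    intro v
    rw [EuclideanSpace.norm_sq_eq, Fin.sum_univ_three]
    simp
  have hin3 : ∀ v w : EuclideanSpace ℝ (Fin 3), inner ℝ v w = v 0 * w 0 + v 1 * w 1 + v 2 * w 2 := by
    intro v w
    rw [PiLp.inner_apply, Fin.sum_univ_three]
    simp
    ring
  have hsp1 : ∀ i, ∃ pq : ℂ × ℂ, ρ = (pq.1.re ^ 2 + pq.1.im ^ 2) + (pq.2.re ^ 2 + pq.2.im ^ 2) ∧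
      ω i 2 = (pq.1.re ^ 2 + pq.1.im ^ 2) - (pq.2.re ^ 2 + pq.2.im ^ 2) ∧
      ω i 0 = 2 * (pq.1.re * pq.2.re + pq.1.im * pq.2.im) ∧
      ω i 1 = 2 * (pq.1.re * pq.2.im - pq.1.im * pq.2.re) := by
    intro i
    obtain ⟨p, q, h1, h2, h3, h4⟩ := spinor ρ (ω i 0) (ω i 1) (ω i 2) hρ.le
      (by rw [← hω i, hn3 (ω i)])
    exact ⟨(p, q), h1, h2, h3, h4⟩
  have hsp2 : ∀ j, ∃ pq : ℂ × ℂ, s' j = (pq.1.re ^ 2 + pq.1.im ^ 2) + (pq.2.re ^ 2 + pq.2.im ^ 2) ∧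
      y' j 2 = (pq.1.re ^ 2 + pq.1.im ^ 2) - (pq.2.re ^ 2 + pq.2.im ^ 2) ∧
      y' j 0 = 2 * (pq.1.re * pq.2.re + pq.1.im * pq.2.im) ∧
      y' j 1 = 2 * (pq.1.re * pq.2.im - pq.1.im * pq.2.re) := by
    intro j
    obtain ⟨p, q, h1, h2, h3, h4⟩ := spinor (s' j) (y' j 0) (y' j 1) (y' j 2) (hs'0 j)
      (by rw [hnull j, hn3 (y' j)])
    exact ⟨(p, q), h1, h2, h3, h4⟩
  choose P hP using hsp1
  choose Q hQ using hsp2
  have hmul : ∀ i j, 2 * ‖(P i).1 * (Q j).2 - (P i).2 * (Q j).1‖ ^ 2 =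
      ρ * s' j - inner ℝ (ω i) (y' j) := by
    intro i j
    rw [hin3]
    obtain ⟨a1, a2, a3, a4⟩ := hP i
    obtain ⟨b1, b2, b3, b4⟩ := hQ j
    exact spinor_mul ρ (ω i 0) (ω i 1) (ω i 2) (s' j) (y' j 0) (y' j 1) (y' j 2)
      (P i).1 (P i).2 (Q j).1 (Q j).2 a1 a2 a3 a4 b1 b2 b3 b4
  refine four_rel (fun i => (P i).1) (fun i => (P i).2) (fun j => (Q j).2) (fun j => (Q j).1)
    (fun i j => ρ * s j - inner ℝ (ω i) (y j)) b β ?_ ?_ hpos hb hβ hrel hcomp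
  · intro i
    rw [hmul i i, hdiag i]
  · intro i j
    rw [hmul i j]
    exact hoff i j

end Pool.Agent.V8H33.GJ
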