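import Pool.Agent.V8H33.GJ.Geo
import Pool.Agent.V8H33.GJ.Ana
import Pool.Agent.V8H1.GJ.Tree
import Pool.Agent.V8H63.GJ.Stack

set_option autoImplicit false

namespace Pool.Agent.V8H33.GJ

/-- Exposed subsets: the vertex sets of the faces. -/
def Exposed {d : ℕ} (V A : Set (E d)) : Prop :=
  ∃ l : E d →L[ℝ] ℝ, ∀ x, x ∈ A ↔ (x ∈ V ∧ ∀ w ∈ V, l w ≤ l x)

theorem exposed_iff {d : ℕ} {p : Lab d → E d} {L : Finset (Lab d)}
    (hinj : Set.InjOn p (L : Set (Lab d))) {A : Finset (Lab d)} (hA : A ⊆ L) :
    Face p L A ↔ Exposed (p '' (L : Set (Lab d))) (p '' (A : Set (Lab d))) := by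
  constructor
  · rintro ⟨l, hl⟩
    refine ⟨l, fun x => ⟨?_, ?_⟩⟩
    · rintro ⟨i, hi, rfl⟩
      obtain ⟨h1, h2⟩ := (hl i).1 hi
      refine ⟨⟨i, h1, rfl⟩, ?_⟩
      rintro w ⟨j, hj, rfl⟩
      exact h2 j hj
    · rintro ⟨⟨i, hi, rfl⟩, h⟩
      exact ⟨i, (hl i).2 ⟨hi, fun j hj => h _ ⟨j, hj, rfl⟩⟩, rfl⟩
  · rintro ⟨l, hl⟩
    refine ⟨l, fun i => ⟨?_, ?_⟩⟩
    · intro hi
      refine ⟨hA hi, fun j hj => ?_⟩
      exact ((hl (p i)).1 ⟨i, hi, rfl⟩).2 _ ⟨j, hj, rfl⟩
    · rintro ⟨hi, h⟩
      obtain ⟨j, hj, hji⟩ := (hl (p i)).2 ⟨⟨i, hi, rfl⟩, by rintro w ⟨j, hj, rfl⟩; exact h j hj⟩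
      have := hinj (hA hj) hi hji
      rw [← this]
      exact hj

theorem single_face {d k : ℕ} (hd : 3 ≤ d) {p : Lab d → E d} (D : Data d k p) {v : Lab d}
    (hv : v ∈ LS (wd d k)) : Face p (LS (wd d k)) {v} := by
  rcases Finset.mem_union.1 hv with h | h
  · exact D.small0 {v} (by simpa using h) ⟨v, by simp⟩ (by simp; omega)
  · obtain ⟨w, hw, rfl⟩ := Finset.mem_image.1 h
    exact D.small w hw {Lab.apx w} (by simp [TS]) ⟨Lab.apx w, by simp⟩ (by simp; omega)

theorem injOn {d k : ℕ} (hd : 3 ≤ d) {p : Lab d → E d} (D : Data d k p) :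
    Set.InjOn p (LS (wd d k) : Set (Lab d)) := by
  intro u hu v hv huv
  obtain ⟨l, hl⟩ := single_face hd D (v := u) hu
  have h1 := (hl u).1 (by simp)
  have h2 : v ∈ ({u} : Finset (Lab d)) := by
    rw [hl v]
    refine ⟨hv, fun j hj => ?_⟩
    rw [← huv]
    exact h1.2 j hj
  simpa [eq_comm] using h2

theorem pow_le_card (d k : ℕ) : d ^ k ≤ (wd d (k + 1)).card := by
  induction k with
  | zero => simp [wd]
  | succ k ih =>
    have h1 : (wd d (k + 2)).card = ((Finset.univ ×ˢ wd d (k + 1)).image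
        (fun x : Fin d × List (Fin d) => x.1 :: x.2)).card + 1 := by
      rw [wd, Finset.card_insert_of_notMem]
      simp
    rw [h1, Finset.card_image_of_injective, Finset.card_product, Finset.card_univ,
      Fintype.card_fin, pow_succ, mul_comm]
    · have := Nat.mul_le_mul_left d ih
      omega
    · rintro ⟨a, u⟩ ⟨b, v⟩ h
      simp at h
      simp [h]

theorem pow_le_LS (d k : ℕ) : d ^ k ≤ (LS (wd d (k + 1))).card := by
  refine (pow_le_card d k).trans ?_
  have h1 : ((wd d (k + 1)).image Lab.apx).card = (wd d (k + 1)).card :=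
    Finset.card_image_of_injective _ (fun a b h => by injection h)
  rw [← h1]
  exact Finset.card_le_card Finset.subset_union_right

/-- The final theorem, with the definitions unfolded as in the frozen statement. -/
theorem final (hC : StmCount) (d : ℕ) (hd : 3 ≤ d) : ∃ C : ℝ, 0 < C ∧ ∀ N : ℕ,
    ∃ V : Finset (E d), affineSpan ℝ (V : Set (E d)) = ⊤ ∧
      (∀ v ∈ V, v ∉ convexHull ℝ ((V : Set (E d)) \ {v})) ∧
      (∀ A : Set (E d), Exposed (V : Set (E d)) A → A ≠ (V : Set (E d)) →
        AffineIndependent ℝ (Subtype.val : A → E d)) ∧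
      N ≤ V.card ∧
      ∀ (W : Finset (E d)) (f : E d → E d),
        Set.BijOn f (V : Set (E d)) (W : Set (E d)) →
        (∀ A : Set (E d), A ⊆ (V : Set (E d)) →
          (Exposed (V : Set (E d)) A ↔ Exposed (W : Set (E d)) (f '' A))) →
        ∀ (c : E d) (r : ℝ), 0 < r → (∀ w ∈ W, dist w c ≤ r) →
          ∀ T : Finset (E d), T ⊆ W → (∀ w ∈ T, dist w c = r) →
            (T.card : ℝ) ≤ C * (V.card : ℝ) ^ (Real.log 2 / Real.log d) := by
  classical
  obtain ⟨C, hC⟩ := hC d hd
  refine ⟨2 * C + 1, by positivity, fun N => ?_⟩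
  set k := N + 1 with hk
  obtain ⟨p, D, hspan, hsimp⟩ := Pool.Agent.V8H1.GJ.stmTree Pool.Agent.V8H63.GJ.stmStack d k hd
  set L := LS (wd d k) with hL
  have hinj : Set.InjOn p (L : Set (Lab d)) := injOn hd D
  have hVL : ((L.image p : Finset (E d)) : Set (E d)) = p '' (L : Set (Lab d)) := by simp
  have hcard : (L.image p).card = L.card := Finset.card_image_of_injOn hinj
  have hbig : d ^ N ≤ (L.image p).card := by
    rw [hcard]; exact pow_le_LS d N
  refine ⟨L.image p, ?_, ?_, ?_, ?_, ?_⟩
  · rw [hVL]; exact hspan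
  · intro v hv hmem
    obtain ⟨i, hi, rfl⟩ := Finset.mem_image.1 hv
    obtain ⟨l, hl⟩ := single_face hd D hi
    have h1 : ∀ x ∈ ((L.image p : Finset (E d)) : Set (E d)) \ {p i}, l x < l (p i) := by
      rintro x ⟨hx, hxi⟩
      rw [hVL] at hx
      obtain ⟨j, hj, rfl⟩ := hx
      by_contra hcon
      push Not at hcon
      have h2 : j ∈ ({i} : Finset (Lab d)) := by
        rw [hl j]
        refine ⟨hj, fun m hm => ?_⟩
        exact (((hl i).1 (by simp)).2 m hm).trans hcon
      apply hxi
      rw [Finset.mem_singleton.1 h2]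
      rfl
    have h3 : convexHull ℝ (((L.image p : Finset (E d)) : Set (E d)) \ {p i}) ⊆
        {x | l x < l (p i)} := by
      refine convexHull_min h1 ?_
      exact convex_halfSpace_lt (l.toLinearMap.isLinear) _
    have h4 : l (p i) < l (p i) := h3 hmem
    exact lt_irrefl _ h4
  · intro A hA hAV
    rw [hVL] at hA hAV
    -- the label set
    set B : Finset (Lab d) := L.filter (fun i => p i ∈ A) with hB
    have hAB : p '' (B : Set (Lab d)) = A := by
      ext x
      constructor
      · rintro ⟨i, hi, rfl⟩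
        exact (Finset.mem_filter.1 hi).2
      · intro hx
        obtain ⟨l, hl⟩ := hA
        obtain ⟨i, hi, rfl⟩ := ((hl x).1 hx).1
        exact ⟨i, Finset.mem_filter.2 ⟨hi, hx⟩, rfl⟩
    have hBL : B ⊆ L := Finset.filter_subset _ _
    have hBf : Face p L B := by
      rw [exposed_iff hinj hBL, hAB]; exact hA
    have hBne : B ≠ L := by
      intro h
      apply hAV
      rw [← hAB, h]
    have h1 := Pool.Agent.V8H1.GJ.ai_of_faces hBL (hsimp B hBf hBne).2
    have h2 : AffineIndependent ℝ (Subtype.val : (p '' (B : Set (Lab d))) → E d) := by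
      have h3 := h1.range
      have h4 : Set.range (fun i : B => p i) = p '' (B : Set (Lab d)) := by
        ext x
        simp
      rw [h4] at h3
      exact h3
    rw [hAB] at h2
    exact h2
  · refine le_trans ?_ hbig
    exact (Nat.lt_pow_self (by omega)).le
  · intro W f hf hiso c r hr hball T hTW hT
    set q : Lab d → E d := fun v => f (p v) with hq
    rw [hVL] at hf hiso
    have hqinj : Set.InjOn q (L : Set (Lab d)) := by
      intro u hu v hv huv
      exact hinj hu hv (hf.injOn ⟨u, hu, rfl⟩ ⟨v, hv, rfl⟩ huv)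
    have hWq : (W : Set (E d)) = q '' (L : Set (Lab d)) := by
      rw [← hf.image_eq]
      ext x
      simp [hq]
    have hface : ∀ A, A ⊆ L → (Face q L A ↔ Face p L A) := by
      intro A hA
      rw [exposed_iff hinj hA, exposed_iff hqinj hA, hiso _ (Set.image_mono (by exact_mod_cast hA)),
        ← hWq, Set.image_image]
    have hqL : ∀ v ∈ L, q v ∈ W := by
      intro v hv
      have : q v ∈ (W : Set (E d)) := by rw [hWq]; exact ⟨v, hv, rfl⟩
      exact this
    have hT0 : T0 d ⊆ L := Finset.subset_union_left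
    have D' : Data d k q := by
      refine ⟨?_, ?_, ?_, ?_⟩
      · intro w hw h
        have hsub : FS w ⊆ L := (Finset.subset_insert _ _).trans (TS_sub hw)
        exact D.notface w hw ((hface _ hsub).1 h)
      · intro w hw
        have hsub : FS w ⊆ L := by
          intro y hy
          obtain ⟨i, rfl⟩ := mem_FS.1 hy
          exact Fc_mem hw.le i
        exact (hface _ hsub).2 (D.leaf w hw)
      · intro A hA h1 h2
        exact (hface _ (hA.trans hT0)).2 (D.small0 A hA h1 h2)
      · intro w hw A hA h1 h2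
        exact (hface _ (hA.trans (TS_sub hw))).2 (D.small w hw A hA h1 h2)
    set X : Finset (Lab d) := L.filter (fun v => q v ∈ T) with hX
    have hXT : X.card = T.card := by
      have h1 : X.image q = T := by
        ext x
        rw [Finset.mem_image]
        constructor
        · rintro ⟨v, hv, rfl⟩
          exact (Finset.mem_filter.1 hv).2
        · intro hx
          have hxW : x ∈ (W : Set (E d)) := hTW hx
          rw [hWq] at hxW
          obtain ⟨v, hv, rfl⟩ := hxW
          exact ⟨v, Finset.mem_filter.2 ⟨hv, hx⟩, rfl⟩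
      rw [← h1, Finset.card_image_of_injOn]
      exact hqinj.mono (by exact_mod_cast Finset.filter_subset _ _)
    have hcount := hC k X (Finset.filter_subset _ _) (by
      intro w hw g x hg hx
      by_contra hcon
      push Not at hcon
      obtain ⟨lam, h1, h2, h3, h4, h5, h6⟩ := stmGeo d k q hd D' w hw g x hg hx
      refine stmAna d (Option (Fin d)) inferInstance inferInstance (fun j => q (Tv w j)) c r g
        (fun i => q (x i)) lam hr ?_ h6 hg ?_ h1 h2 h3 h4 h5
      · intro j
        exact hball _ (hqL _ (TS_sub hw (Tv_mem w j)))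
      · intro i
        exact hT _ (Finset.mem_filter.1 (hcon i)).2)
    rw [hXT] at hcount
    have hd0 : (0 : ℝ) < d := by positivity
    have hlog : 0 < Real.log d := Real.log_pos (by exact_mod_cast (by omega : 1 < d))
    have hexp : (0 : ℝ) ≤ Real.log 2 / Real.log d := div_nonneg (Real.log_nonneg (by norm_num)) hlog.le
    have h2k : (2 : ℝ) ^ N = ((d : ℝ) ^ N) ^ (Real.log 2 / Real.log d) := by
      rw [← Real.rpow_natCast, ← Real.rpow_natCast, ← Real.rpow_mul hd0.le,
        Real.rpow_def_of_pos (by norm_num : (0 : ℝ) < 2), Real.rpow_def_of_pos hd0]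
      congr 1
      field_simp
    have hV : ((d : ℝ) ^ N) ^ (Real.log 2 / Real.log d) ≤
        ((L.image p).card : ℝ) ^ (Real.log 2 / Real.log d) :=
      Real.rpow_le_rpow (by positivity) (by exact_mod_cast hbig) hexp
    have hcount' : (T.card : ℝ) ≤ C * 2 ^ k := by exact_mod_cast hcount
    have hVpos : 0 ≤ ((L.image p).card : ℝ) ^ (Real.log 2 / Real.log d) := by positivity
    calc (T.card : ℝ) ≤ C * 2 ^ k := hcount'
      _ = 2 * C * 2 ^ N := by rw [hk, pow_succ]; ring
      _ = 2 * C * ((d : ℝ) ^ N) ^ (Real.log 2 / Real.log d) := by rw [h2k]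
      _ ≤ 2 * C * ((L.image p).card : ℝ) ^ (Real.log 2 / Real.log d) :=
          mul_le_mul_of_nonneg_left hV (by positivity)
      _ ≤ (2 * C + 1) * ((L.image p).card : ℝ) ^ (Real.log 2 / Real.log d) :=
          mul_le_mul_of_nonneg_right (by linarith) hVpos

end Pool.Agent.V8H33.GJ
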