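import Pool.Agent.V8H33.GJ.GeoA

set_option autoImplicit false

namespace Pool.Agent.V8H33.GJ

open Finset

variable {d k : ℕ} {q : Lab d → E d}

theorem face_aff {L A : Finset (Lab d)} (hf : Face q L A) (hne : A.Nonempty) :
    ∃ h : E d →ᵃ[ℝ] ℝ, (∀ y ∈ A, h (q y) = 0) ∧ ∀ y ∈ L, y ∉ A → 0 < h (q y) := by
  obtain ⟨l, hl⟩ := hf
  obtain ⟨a, ha⟩ := hne
  refine ⟨AffineMap.const ℝ (E d) (l (q a)) - (l : E d →ₗ[ℝ] ℝ).toAffineMap, ?_, ?_⟩
  · intro y hy
    have h1 := ((hl y).1 hy).2 a ((hl a).1 ha).1
    have h2 := ((hl a).1 ha).2 y ((hl y).1 hy).1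
    show l (q a) - l (q y) = 0
    linarith
  · intro y hyL hyA
    have h1 : ¬ ∀ j ∈ L, l (q j) ≤ l (q y) := fun hc => hyA ((hl y).2 ⟨hyL, hc⟩)
    push Not at h1
    obtain ⟨j, hj, hlt⟩ := h1
    have h2 := ((hl a).1 ha).2 j hj
    show 0 < l (q a) - l (q y)
    linarith

theorem aff_dec (h : E d →ᵃ[ℝ] ℝ) (P : E d) : h P = h.linear P + h 0 := by
  have := h.linearMap_vsub P 0
  rw [vsub_eq_sub, vsub_eq_sub, sub_zero] at this
  linarith

theorem face_of_aff {L A : Finset (Lab d)} (hAL : A ⊆ L) (hne : A.Nonempty) (h : E d →ᵃ[ℝ] ℝ)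
    (h0 : ∀ y ∈ A, h (q y) = 0) (h1 : ∀ y ∈ L, y ∉ A → 0 < h (q y)) : Face q L A := by
  obtain ⟨a, ha⟩ := hne
  refine ⟨LinearMap.toContinuousLinearMap (-h.linear), ?_⟩
  intro y
  have hval : ∀ P, (LinearMap.toContinuousLinearMap (-h.linear)) P = h 0 - h P := by
    intro P
    rw [LinearMap.coe_toContinuousLinearMap', LinearMap.neg_apply, aff_dec h P]
    ring
  constructor
  · intro hy
    refine ⟨hAL hy, fun z hz => ?_⟩
    rw [hval, hval, h0 y hy]
    by_cases hzA : z ∈ A
    · rw [h0 z hzA]
    · have := h1 z hz hzA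
      linarith
  · rintro ⟨hyL, hy⟩
    by_contra hyA
    have h2 := hy a (hAL ha)
    rw [hval, hval, h0 a ha] at h2
    have := h1 y hyL hyA
    linarith

theorem aff_exp (b : AffineBasis (Option (Fin d)) ℝ (E d)) (h : E d →ᵃ[ℝ] ℝ) (P : E d) :
    h P = ∑ j, b.coord j P * h (b j) := by
  have hP := b.linear_combination_coord_eq_self P
  calc h P = h.linear P + h 0 := aff_dec h P
    _ = h.linear (∑ j, b.coord j P • b j) + (∑ j, b.coord j P) * h 0 := by
        rw [hP, b.sum_coord_apply_eq_one, one_mul]
    _ = ∑ j, b.coord j P * h (b j) := by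
        rw [map_sum, Finset.sum_mul, ← Finset.sum_add_distrib]
        refine Finset.sum_congr rfl fun j _ => ?_
        rw [map_smul, aff_dec h (b j), smul_eq_mul]
        ring

theorem aff_ind (hd : 3 ≤ d) (D : Data d k q) {w : List (Fin d)} (hw : w ∈ wd d k) :
    AffineIndependent ℝ (fun j => q (Tv w j)) := by
  classical
  by_contra hcon
  obtain ⟨I, P, hP1, hP2⟩ := Convex.radon_partition hcon
  have key : ∀ J : Finset (Option (Fin d)), J.card ≤ d - 1 →
      P ∈ convexHull ℝ ((fun j => q (Tv w j)) '' (J : Set (Option (Fin d)))) →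
      P ∈ convexHull ℝ ((fun j => q (Tv w j)) '' ((J : Set (Option (Fin d)))ᶜ)) → False := by
    intro J hc h1 h2
    have hJ : J.Nonempty := by
      rw [Finset.nonempty_iff_ne_empty]
      rintro rfl
      rw [Finset.coe_empty, Set.image_empty, convexHull_empty] at h1
      exact h1
    obtain ⟨h, h0, hpos⟩ := face_aff (D.small w hw (J.image (Tv w)) (by
        intro y hy
        obtain ⟨j, _, rfl⟩ := Finset.mem_image.1 hy
        exact Tv_mem w j) (hJ.image _) (by
        rw [Finset.card_image_of_injective _ (Tv_inj w)]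
        exact hc)) (hJ.image _)
    have e1 : h P = 0 := by
      have : convexHull ℝ ((fun j => q (Tv w j)) '' (J : Set (Option (Fin d)))) ⊆ h ⁻¹' {0} := by
        apply convexHull_min
        · rintro _ ⟨j, hj, rfl⟩
          exact h0 _ (Finset.mem_image_of_mem _ hj)
        · exact (convex_singleton 0).affine_preimage h
      exact this h1
    have e2 : 0 < h P := by
      have : convexHull ℝ ((fun j => q (Tv w j)) '' ((J : Set (Option (Fin d)))ᶜ)) ⊆
          h ⁻¹' (Set.Ioi 0) := by
        apply convexHull_min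
        · rintro _ ⟨j, hj, rfl⟩
          refine hpos _ (TS_sub hw (Tv_mem w j)) ?_
          intro hm
          obtain ⟨j', hj', e⟩ := Finset.mem_image.1 hm
          rw [Tv_inj w e] at hj'
          exact hj hj'
        · exact (convex_Ioi 0).affine_preimage h
      exact this h2
    linarith
  obtain ⟨J, rfl⟩ : ∃ J : Finset (Option (Fin d)), (J : Set (Option (Fin d))) = I :=
    ⟨I.toFinite.toFinset, Set.Finite.coe_toFinset _⟩
  have hcard := Finset.card_add_card_compl J
  rw [Fintype.card_option, Fintype.card_fin] at hcard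
  rcases Nat.lt_or_ge (d - 1) J.card with h | h
  · refine key Jᶜ (by omega) ?_ ?_
    · rw [Finset.coe_compl]
      exact hP2
    · rw [Finset.coe_compl, compl_compl]
      exact hP1
  · exact key J h hP1 hP2

theorem exists_bas (hd : 3 ≤ d) (D : Data d k q) {w : List (Fin d)} (hw : w ∈ wd d k) :
    ∃ b : AffineBasis (Option (Fin d)) ℝ (E d), ∀ j, b j = q (Tv w j) := by
  have hi := aff_ind hd D hw
  have hs : affineSpan ℝ (Set.range fun j => q (Tv w j)) = ⊤ := by
    rw [hi.affineSpan_eq_top_iff_card_eq_finrank_add_one]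
    simp
  exact ⟨⟨_, hi, hs⟩, fun j => rfl⟩

theorem edge_pos (hd : 3 ≤ d) (D : Data d k q) {w : List (Fin d)} (hw : w ∈ wd d k)
    (b : AffineBasis (Option (Fin d)) ℝ (E d)) (hb : ∀ j, b j = q (Tv w j))
    {y y' : Lab d} (hy : y ∈ LS (wd d k)) (hy' : y' ∈ LS (wd d k)) (hyF : y ∉ FS w)
    (hyF' : y' ∉ FS w) (hf : Face q (LS (wd d k)) {y, y'}) :
    0 < b.coord none (q y) * b.coord none (q y') := by
  by_contra hcon
  push Not at hcon
  obtain ⟨s, t, hs, ht, hst, hz⟩ : ∃ s t : ℝ, 0 ≤ s ∧ 0 ≤ t ∧ s + t = 1 ∧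
      s * b.coord none (q y) + t * b.coord none (q y') = 0 := by
    set u := b.coord none (q y) with hu
    set v := b.coord none (q y') with hv
    rcases lt_trichotomy u 0 with h | h | h
    · have hv0 : 0 ≤ v := by
        by_contra hc
        push Not at hc
        have := mul_pos_of_neg_of_neg h hc
        linarith
      have hne : 0 < v - u := by linarith
      refine ⟨v / (v - u), -u / (v - u), by positivity, ?_, ?_, ?_⟩
      · apply div_nonneg <;> linarith
      · field_simp
        ring
      · field_simp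
        ring
    · exact ⟨1, 0, by norm_num, by norm_num, by norm_num, by rw [h]; ring⟩
    · have hv0 : v ≤ 0 := by
        by_contra hc
        push Not at hc
        have := mul_pos h hc
        linarith
      have hne : 0 < u - v := by linarith
      refine ⟨-v / (u - v), u / (u - v), ?_, by positivity, ?_, ?_⟩
      · apply div_nonneg <;> linarith
      · field_simp
        ring
      · field_simp
        ring
  have haff : ∀ h : E d →ᵃ[ℝ] ℝ, h (s • q y + t • q y') = s * h (q y) + t * h (q y') := by
    intro h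
    rw [aff_dec h (s • q y + t • q y'), map_add, map_smul, map_smul, aff_dec h (q y),
      aff_dec h (q y'), smul_eq_mul, smul_eq_mul]
    linear_combination (-h 0) * hst
  have hcomb : ∀ u v : ℝ, 0 < u → 0 < v → 0 < s * u + t * v := by
    intro u v hu hv
    rcases hs.lt_or_eq with h | h
    · have h1 := mul_pos h hu
      have h2 := mul_nonneg ht hv.le
      linarith
    · have ht1 : t = 1 := by linarith
      rw [← h, ht1]
      linarith
  have hexp : ∀ h : E d →ᵃ[ℝ] ℝ, h (s • q y + t • q y') =
      ∑ j : Fin d, b.coord (some j) (s • q y + t • q y') * h (q (Fc w j)) := by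
    intro h
    have h0 : b.coord none (s • q y + t • q y') = 0 := by
      rw [haff]
      exact hz
    rw [aff_exp b h, Fintype.sum_option, h0, zero_mul, zero_add]
    refine Finset.sum_congr rfl fun j _ => ?_
    rw [hb]
    rfl
  have hFL : ∀ j, Fc w j ∈ LS (wd d k) := fun j => Fc_mem (mem_wd.1 hw).le j
  have hFF : ∀ j, Fc w j ∈ FS w := fun j => mem_FS.2 ⟨j, rfl⟩
  have hpos : ∀ i : Fin d, 0 < b.coord (some i) (s • q y + t • q y') := by
    intro i
    have hcard : ((FS w).erase (Fc w i)).card = d - 1 := by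
      rw [Finset.card_erase_of_mem (hFF i), card_FS]
    have hne : ((FS w).erase (Fc w i)).Nonempty := by
      rw [← Finset.card_pos, hcard]
      omega
    obtain ⟨h, hh0, hh1⟩ := face_aff (D.small w hw ((FS w).erase (Fc w i))
      (fun z hz => Finset.mem_insert_of_mem (Finset.mem_of_mem_erase hz)) hne hcard.le) hne
    have e1 : 0 < h (s • q y + t • q y') := by
      rw [haff]
      exact hcomb _ _ (hh1 y hy (fun hm => hyF (Finset.mem_of_mem_erase hm)))
        (hh1 y' hy' (fun hm => hyF' (Finset.mem_of_mem_erase hm)))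
    rw [hexp h, Finset.sum_eq_single i] at e1
    · have h3 : 0 < h (q (Fc w i)) := hh1 _ (hFL i) (Finset.notMem_erase _ _)
      exact (mul_pos_iff_of_pos_right h3).1 e1
    · intro j _ hji
      rw [hh0 _ (Finset.mem_erase.2 ⟨fun e => hji (Fc_inj w e), hFF j⟩), mul_zero]
    · intro hi
      exact absurd (Finset.mem_univ i) hi
  obtain ⟨h, hh0, hh1⟩ := face_aff hf ⟨y, by simp⟩
  have e1 : h (s • q y + t • q y') = 0 := by
    rw [haff, hh0 y (by simp), hh0 y' (by simp)]
    ring
  have e2 : 0 < h (s • q y + t • q y') := by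
    rw [hexp h]
    refine Finset.sum_pos (fun j _ => mul_pos (hpos j) (hh1 _ (hFL j) ?_)) ⟨⟨0, by omega⟩, Finset.mem_univ _⟩
    intro hm
    rcases Finset.mem_insert.1 hm with e | e
    · exact hyF (e ▸ hFF j)
    · rw [Finset.mem_singleton] at e
      exact hyF' (e ▸ hFF j)
  linarith

theorem sep_none (hd : 3 ≤ d) (D : Data d k q) {w : List (Fin d)} (hw : w ∈ wd d k)
    (b : AffineBasis (Option (Fin d)) ℝ (E d)) (hb : ∀ j, b j = q (Tv w j)) :
    ∀ y ∈ LS (wd d k), y ∉ FS w →
      (InBr w y → 0 < b.coord none (q y)) ∧ (¬ InBr w y → b.coord none (q y) < 0) := by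
  -- the edges used
  have edge : ∀ v ∈ wd d k, ∀ y y', y ∈ TS v → y' ∈ TS v → y ∉ FS w → y' ∉ FS w →
      0 < b.coord none (q y) * b.coord none (q y') := by
    intro v hv y y' h1 h2 h3 h4
    refine edge_pos hd D hw b hb (TS_sub hv h1) (TS_sub hv h2) h3 h4 ?_
    refine D.small v hv {y, y'} ?_ ⟨y, by simp⟩ ((Finset.card_le_two).trans (by omega))
    intro z hz
    rcases Finset.mem_insert.1 hz with rfl | hz
    · exact h1
    · rw [Finset.mem_singleton] at hz
      rw [hz]
      exact h2
  have edge0 : ∀ y y', y ∈ T0 d → y' ∈ T0 d → y ∉ FS w → y' ∉ FS w →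
      0 < b.coord none (q y) * b.coord none (q y') := by
    intro y y' h1 h2 h3 h4
    refine edge_pos hd D hw b hb (Finset.mem_union_left _ h1) (Finset.mem_union_left _ h2) h3 h4 ?_
    refine D.small0 {y, y'} ?_ ⟨y, by simp⟩ ((Finset.card_le_two).trans (by omega))
    intro z hz
    rcases Finset.mem_insert.1 hz with rfl | hz
    · exact h1
    · rw [Finset.mem_singleton] at hz
      rw [hz]
      exact h2
  -- inside the branch
  have hin : ∀ u : List (Fin d), u ++ w ∈ wd d k → 0 < b.coord none (q (Lab.apx (u ++ w))) := by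
    intro u
    induction u with
    | nil =>
      intro _
      have h1 : q (Lab.apx ([] ++ w)) = b none := (hb none).symm
      rw [h1, b.coord_apply_eq]
      norm_num
    | cons i u ih =>
      intro hu
      have hu' : u ++ w ∈ wd d k := by
        rw [mem_wd] at hu ⊢
        rw [List.cons_append, List.length_cons] at hu
        omega
      have h1 := ih hu'
      have h2 := edge (i :: (u ++ w)) hu (Lab.apx (i :: (u ++ w))) (Lab.apx (u ++ w))
        (Finset.mem_insert_self _ _) (Finset.mem_insert_of_mem (mem_FS_cons.2 (Or.inl rfl)))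
        (inBr_not_mem_FS ⟨i :: u, rfl⟩) (inBr_not_mem_FS ⟨u, rfl⟩)
      exact (mul_pos_iff_of_pos_right h1).1 h2
  -- outside the branch
  have hopp : (Lab.opp : Lab d) ∉ FS w := opp_not_mem_FS w
  have hopp0 : (Lab.opp : Lab d) ∈ T0 d := Finset.mem_insert_self _ _
  have hself := edge0 _ _ hopp0 hopp0 hopp hopp
  have hbase : ∀ j, (Lab.base j : Lab d) ∉ FS w →
      0 < b.coord none (q (Lab.base j)) * b.coord none (q Lab.opp) := by
    intro j hj
    exact edge0 _ _ (Finset.mem_insert_of_mem (Finset.mem_image_of_mem _ (Finset.mem_univ _)))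
      hopp0 hj hopp
  have hout : ∀ n : ℕ, ∀ v : List (Fin d), v.length = n → v ∈ wd d k → ¬ w <:+ v →
      Lab.apx v ∉ FS w → 0 < b.coord none (q (Lab.apx v)) * b.coord none (q Lab.opp) := by
    intro n
    induction n using Nat.strong_induction_on with
    | _ n ih =>
      intro v hn hv hsuf hvF
      have hne : v ≠ w := by
        rintro rfl
        exact hsuf (List.suffix_refl _)
      obtain ⟨z, hz, hzF⟩ := exists_mem_FS hne
      have h1 := edge v hv (Lab.apx v) z (Finset.mem_insert_self _ _)
        (Finset.mem_insert_of_mem hz) hvF hzF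
      have h2 : 0 < b.coord none (q z) * b.coord none (q Lab.opp) := by
        obtain ⟨i, rfl⟩ := mem_FS.1 hz
        rcases Fc_shape v i with ⟨j, hj⟩ | ⟨v', hv', hl, hs⟩
        · rw [hj] at hzF ⊢
          exact hbase j hzF
        · rw [hv'] at hzF ⊢
          refine ih v'.length (by omega) v' rfl (suffix_mem_wd hl.le hv) ?_ hzF
          intro hc
          exact hsuf (hc.trans hs)
      have h3 : 0 < b.coord none (q z) * b.coord none (q z) :=
        mul_self_pos.2 (fun h0 => by rw [h0] at h2; simp at h2)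
      have h4 := mul_pos h1 h2
      have h5 : (b.coord none (q z) * b.coord none (q z)) *
          (b.coord none (q (Lab.apx v)) * b.coord none (q Lab.opp)) =
          b.coord none (q (Lab.apx v)) * b.coord none (q z) *
          (b.coord none (q z) * b.coord none (q Lab.opp)) := by ring
      rw [← h5] at h4
      exact (mul_pos_iff_of_pos_left h3).1 h4
  have hout' : ∀ y ∈ LS (wd d k), y ∉ FS w → ¬ InBr w y →
      0 < b.coord none (q y) * b.coord none (q Lab.opp) := by
    intro y hy hyF hyB
    cases y with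
    | base j => exact hbase j hyF
    | opp => exact hself
    | apx v =>
      refine hout _ v rfl (apx_mem.1 hy) ?_ hyF
      rintro ⟨u, hu⟩
      exact hyB ⟨u, by rw [hu]⟩
  have hin' : ∀ y ∈ LS (wd d k), InBr w y → 0 < b.coord none (q y) := by
    rintro y hy ⟨u, rfl⟩
    exact hin u (apx_mem.1 hy)
  -- the sign of opp
  have hsign : b.coord none (q Lab.opp) < 0 := by
    by_contra hcon
    push Not at hcon
    have hpos : 0 < b.coord none (q Lab.opp) := by
      rcases hcon.lt_or_eq with h | h
      · exact h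
      · rw [← h] at hself
        simp at hself
    refine D.notface w hw (face_of_aff (h := b.coord none)
      (fun z hz => TS_sub hw (Finset.mem_insert_of_mem hz))
      ⟨Fc w ⟨0, by omega⟩, mem_FS.2 ⟨_, rfl⟩⟩ ?_ ?_)
    · intro z hz
      obtain ⟨j, rfl⟩ := mem_FS.1 hz
      have h1 : q (Fc w j) = b (some j) := (hb (some j)).symm
      rw [h1]
      exact b.coord_apply_ne (by simp)
    · intro z hz hzF
      by_cases hzB : InBr w z
      · exact hin' z hz hzB
      · exact (mul_pos_iff_of_pos_right hpos).1 (hout' z hz hzF hzB)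
  intro y hy hyF
  refine ⟨hin' y hy, fun hyB => ?_⟩
  have := hout' y hy hyF hyB
  exact (neg_iff_neg_of_mul_pos this).2 hsign

theorem sep_some (hd : 3 ≤ d) (D : Data d k q) {w : List (Fin d)} (hw : w ∈ wd d k)
    (b : AffineBasis (Option (Fin d)) ℝ (E d)) (hb : ∀ j, b j = q (Tv w j)) (i : Fin d) :
    ∀ y ∈ LS (wd d k), y ∉ FS (i :: w) →
      (InBr (i :: w) y → b.coord (some i) (q y) < 0) ∧
        (¬ InBr (i :: w) y → 0 < b.coord (some i) (q y)) := by
  have hwk := mem_wd.1 hw
  have hFn : Fc w i ∉ FS (i :: w) := by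
    intro hm
    rcases mem_FS_cons.1 hm with h | ⟨j, hj, h⟩
    · exact Fc_ne_apx le_rfl i h
    · exact hj (Fc_inj w h)
  have hFb : ¬ InBr (i :: w) (Fc w i) := by
    rintro ⟨u, hu⟩
    refine Fc_ne_apx ?_ i hu
    rw [List.length_append, List.length_cons]
    omega
  have hFL : Fc w i ∈ LS (wd d k) := Fc_mem hwk.le i
  -- the coordinate some i vanishes on the facet of i :: w
  have hzero : ∀ z ∈ FS (i :: w), b.coord (some i) (q z) = 0 := by
    intro z hz
    rcases mem_FS_cons.1 hz with rfl | ⟨j, hj, rfl⟩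
    · have h1 : q (Lab.apx w) = b none := (hb none).symm
      rw [h1]
      exact b.coord_apply_ne (by simp)
    · have h1 : q (Fc w j) = b (some j) := (hb (some j)).symm
      rw [h1]
      exact b.coord_apply_ne (by simpa using hj.symm)
  have hone : b.coord (some i) (q (Fc w i)) = 1 := by
    have h1 : q (Fc w i) = b (some i) := (hb (some i)).symm
    rw [h1]
    exact b.coord_apply_eq _
  by_cases hiw : i :: w ∈ wd d k
  · obtain ⟨b', hb'⟩ := exists_bas hd D hiw
    have hS := sep_none hd D hiw b' hb'
    have hexp : ∀ z, b.coord (some i) (q z) = b'.coord none (q z) * b.coord (some i) (b' none) := by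
      intro z
      rw [aff_exp b' (b.coord (some i)) (q z), Fintype.sum_option]
      rw [Finset.sum_eq_zero, add_zero]
      intro j _
      rw [hb', hzero (Tv (i :: w) (some j)) (mem_FS.2 ⟨j, rfl⟩), mul_zero]
    have h1 := (hS _ hFL hFn).2 hFb
    have h2 := hexp (Fc w i)
    rw [hone] at h2
    have hc : b.coord (some i) (b' none) < 0 := by
      by_contra hcon
      push Not at hcon
      have := mul_nonpos_of_nonpos_of_nonneg h1.le hcon
      linarith
    intro y hy hyF
    rw [hexp y]
    refine ⟨fun hB => mul_neg_of_pos_of_neg ((hS y hy hyF).1 hB) hc,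
      fun hB => mul_pos_of_neg_of_neg ((hS y hy hyF).2 hB) hc⟩
  · have hlen : (i :: w).length = k := by
      rw [mem_wd, List.length_cons] at hiw
      rw [List.length_cons]
      omega
    have hne : (FS (i :: w)).Nonempty := ⟨Lab.apx w, mem_FS_cons.2 (Or.inl rfl)⟩
    obtain ⟨h, hh0, hh1⟩ := face_aff (D.leaf (i :: w) hlen) hne
    have hexp : ∀ z, h (q z) = b.coord (some i) (q z) * h (q (Fc w i)) := by
      intro z
      rw [aff_exp b h (q z), Finset.sum_eq_single (some i)]
      · rw [hb]
        rfl
      · rintro (_ | j) _ hj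
        · rw [hb, hh0 (Tv w none) (mem_FS_cons.2 (Or.inl rfl)), mul_zero]
        · rw [hb, hh0 (Tv w (some j))
            (mem_FS_cons.2 (Or.inr ⟨j, fun e => hj (by rw [e]), rfl⟩)), mul_zero]
      · intro hi
        exact absurd (Finset.mem_univ _) hi
    have h1 := hh1 _ hFL hFn
    intro y hy hyF
    refine ⟨?_, fun _ => ?_⟩
    · rintro ⟨u, rfl⟩
      have h2 := mem_wd.1 (apx_mem.1 hy)
      rw [List.length_append, hlen] at h2
      omega
    · have h2 := hh1 y hy hyF
      rw [hexp y] at h2
      exact (mul_pos_iff_of_pos_right h1).1 h2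

theorem stmGeo : StmGeo := by
  intro d k q hd D w hw g x hg hx
  obtain ⟨b, hb⟩ := exists_bas hd D hw
  have hN := sep_none hd D hw b hb
  have hS := sep_some hd D hw b hb
  have hwk := mem_wd.1 hw
  -- the points are outside the simplex
  have hxL : ∀ i, x i ∈ LS (wd d k) := by
    intro i
    have h1 := hx i
    cases hgi : g i with
    | none => rw [hgi] at h1; exact h1.1
    | some a => rw [hgi] at h1; exact h1.1
  have hxF : ∀ i, x i ∉ FS w := by
    intro i
    have h1 := hx i
    cases hgi : g i with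
    | none => rw [hgi] at h1; exact h1.2.1
    | some a =>
      rw [hgi] at h1
      obtain ⟨u, hu⟩ := h1.2
      rw [hu]
      exact inBr_not_mem_FS ⟨u ++ [a], by simp⟩
  have hxA : ∀ i, x i ≠ Lab.apx w := by
    intro i hc
    have h1 := hx i
    cases hgi : g i with
    | none => rw [hgi] at h1; exact h1.2.2 ⟨[], by rw [hc]; rfl⟩
    | some a =>
      rw [hgi] at h1
      obtain ⟨u, hu⟩ := h1.2
      rw [hc] at hu
      injection hu with hu
      have := congrArg List.length hu
      rw [List.length_append, List.length_cons] at this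
      omega
  have hxT : ∀ i, x i ∉ TS w := by
    intro i hm
    rcases Finset.mem_insert.1 hm with h | h
    · exact hxA i h
    · exact hxF i h
  have hxC : ∀ i j, x i ∉ FS (j :: w) := by
    intro i j hm
    rcases mem_FS_cons.1 hm with h | ⟨l, _, h⟩
    · exact hxA i h
    · exact hxF i (mem_FS.2 ⟨l, h⟩)
  have hneg : ∀ i, b.coord (g i) (q (x i)) < 0 := by
    intro i
    have h1 := hx i
    cases hgi : g i with
    | none => rw [hgi] at h1; exact (hN _ (hxL i) (hxF i)).2 h1.2.2
    | some a => rw [hgi] at h1; exact (hS a _ (hxL i) (hxC i a)).1 h1.2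
  have hpos : ∀ i j, j ≠ g i → 0 < b.coord j (q (x i)) := by
    intro i j hj
    have h1 := hx i
    cases hgi : g i with
    | none =>
      rw [hgi] at h1 hj
      cases j with
      | none => exact absurd rfl hj
      | some c =>
        refine (hS c _ (hxL i) (hxC i c)).2 ?_
        rintro ⟨u, hu⟩
        exact h1.2.2 ⟨u ++ [c], by rw [hu]; simp⟩
    | some a =>
      rw [hgi] at h1 hj
      obtain ⟨u, hu⟩ := h1.2
      cases j with
      | none => exact (hN _ (hxL i) (hxF i)).1 ⟨u ++ [a], by rw [hu]; simp⟩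
      | some c =>
        refine (hS c _ (hxL i) (hxC i c)).2 ?_
        rintro ⟨u', hu'⟩
        rw [hu] at hu'
        injection hu' with hu'
        have := (List.append_inj' hu' (by simp)).2
        injection this with h2 _
        exact hj (by rw [h2])
  refine ⟨fun i j => b.coord j (q (x i)), fun i => b.sum_coord_apply_eq_one _, ?_, hneg, hpos, ?_, ?_⟩
  · intro i
    conv_lhs => rw [← b.linear_combination_coord_eq_self (q (x i))]
    refine Finset.sum_congr rfl fun j _ => ?_
    rw [hb]
  · intro i i' hii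
    have hab : g i ≠ g i' := fun e => hii (hg e)
    set A : Finset (Lab d) := (Finset.univ.erase (g i) |>.erase (g i')).image (Tv w) with hA
    have hcard : A.card = d - 1 := by
      rw [hA, Finset.card_image_of_injective _ (Tv_inj w), Finset.card_erase_of_mem,
        Finset.card_erase_of_mem (Finset.mem_univ _), Finset.card_univ, Fintype.card_option,
        Fintype.card_fin]
      · omega
      · exact Finset.mem_erase.2 ⟨hab.symm, Finset.mem_univ _⟩
    have hne : A.Nonempty := by
      rw [← Finset.card_pos, hcard]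
      omega
    have hAT : A ⊆ TS w := by
      intro z hz
      obtain ⟨j, _, rfl⟩ := Finset.mem_image.1 hz
      exact Tv_mem w j
    have hTA : ∀ j, Tv w j ∈ A ↔ j ≠ g i ∧ j ≠ g i' := by
      intro j
      rw [hA, Finset.mem_image]
      constructor
      · rintro ⟨l, hl, e⟩
        rw [Tv_inj w e] at hl
        rw [Finset.mem_erase, Finset.mem_erase] at hl
        exact ⟨hl.2.1, hl.1⟩
      · rintro ⟨h1, h2⟩
        exact ⟨j, Finset.mem_erase.2 ⟨h2, Finset.mem_erase.2 ⟨h1, Finset.mem_univ _⟩⟩, rfl⟩
    obtain ⟨h, hh0, hh1⟩ := face_aff (D.small w hw A hAT hne hcard.le) hne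
    have hexp : ∀ z, h (q z) = b.coord (g i) (q z) * h (q (Tv w (g i))) +
        b.coord (g i') (q z) * h (q (Tv w (g i'))) := by
      intro z
      rw [aff_exp b h (q z), ← Finset.sum_subset (Finset.subset_univ {g i, g i'}),
        Finset.sum_pair hab, hb, hb]
      intro j _ hj
      rw [hb, hh0 _ ((hTA j).2 ?_), mul_zero]
      constructor
      · rintro rfl
        exact hj (by simp)
      · rintro rfl
        exact hj (by simp)
    have hP : 0 < h (q (Tv w (g i))) :=
      hh1 _ (TS_sub hw (Tv_mem w _)) (fun hm => ((hTA _).1 hm).1 rfl)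
    have hQ : 0 < h (q (Tv w (g i'))) :=
      hh1 _ (TS_sub hw (Tv_mem w _)) (fun hm => ((hTA _).1 hm).2 rfl)
    have h1 := hh1 (x i) (hxL i) (fun hm => hxT i (hAT hm))
    have h2 := hh1 (x i') (hxL i') (fun hm => hxT i' (hAT hm))
    rw [hexp] at h1 h2
    have n1 := hneg i
    have n2 := hneg i'
    have p1 := hpos i (g i') hab.symm
    have p2 := hpos i' (g i) hab
    show b.coord (g i) (q (x i)) * b.coord (g i') (q (x i')) <
      b.coord (g i') (q (x i)) * b.coord (g i) (q (x i'))
    generalize b.coord (g i) (q (x i)) = α at *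
    generalize b.coord (g i') (q (x i')) = β at *
    generalize b.coord (g i') (q (x i)) = γ at *
    generalize b.coord (g i) (q (x i')) = δ at *
    generalize h (q (Tv w (g i))) = P at *
    generalize h (q (Tv w (g i'))) = Q at *
    -- α P + γ Q > 0, δ P + β Q > 0
    have e1 : 0 < -α * P := mul_pos (by linarith) hP
    have e2 : 0 < -β * Q := mul_pos (by linarith) hQ
    have e3 : (-α * P) * (-β * Q) < (γ * Q) * (δ * P) := by
      apply mul_lt_mul'' _ _ e1.le e2.le
      · linarith
      · linarith
    have hPQ : 0 < P * Q := mul_pos hP hQ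
    have e4 : (α * β) * (P * Q) < (γ * δ) * (P * Q) := by
      calc (α * β) * (P * Q) = (-α * P) * (-β * Q) := by ring
        _ < (γ * Q) * (δ * P) := e3
        _ = (γ * δ) * (P * Q) := by ring
    exact lt_of_mul_lt_mul_right e4 hPQ.le
  · intro j j' h
    have h1 : q (Tv w j) = q (Tv w j') := h
    rw [← hb, ← hb] at h1
    exact b.ind.injective h1

end Pool.Agent.V8H33.GJ
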