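import Pool.Agent.V8H33.GJ.Defs

set_option autoImplicit false

namespace Pool.Agent.V8H33.GJ

open Finset

variable {d : ℕ}

theorem mem_wd {k : ℕ} {w : List (Fin d)} : w ∈ wd d k ↔ w.length < k := by
  induction k generalizing w with
  | zero => simp [wd]
  | succ k ih =>
    rw [wd, Finset.mem_insert, Finset.mem_image]
    constructor
    · rintro (rfl | ⟨⟨a, v⟩, hv, rfl⟩)
      · simp
      · rw [Finset.mem_product] at hv
        have := ih.1 hv.2
        simpa using this
    · intro h
      cases w with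
      | nil => exact Or.inl rfl
      | cons a v =>
        refine Or.inr ⟨⟨a, v⟩, ?_, rfl⟩
        rw [Finset.mem_product]
        exact ⟨Finset.mem_univ _, ih.2 (by simpa using h)⟩

theorem Fc_cons (w : List (Fin d)) (i j : Fin d) :
    Fc (i :: w) j = if j = i then Lab.apx w else Fc w j := by
  rw [Fc, Function.update_apply]

theorem Fc_shape (w : List (Fin d)) (i : Fin d) : (∃ j, Fc w i = Lab.base j) ∨
    ∃ v, Fc w i = Lab.apx v ∧ v.length < w.length ∧ v <:+ w := by
  induction w with
  | nil => exact Or.inl ⟨i, rfl⟩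
  | cons a w ih =>
    rw [Fc_cons]
    by_cases h : i = a
    · rw [if_pos h]
      exact Or.inr ⟨w, rfl, by simp, List.suffix_cons a w⟩
    · rw [if_neg h]
      rcases ih with ⟨j, hj⟩ | ⟨v, hv, hl, hs⟩
      · exact Or.inl ⟨j, hj⟩
      · refine Or.inr ⟨v, hv, ?_, hs.trans (List.suffix_cons a w)⟩
        rw [List.length_cons]
        omega

theorem Fc_ne_apx {w v : List (Fin d)} (h : w.length ≤ v.length) (i : Fin d) :
    Fc w i ≠ Lab.apx v := by
  intro hc
  rcases Fc_shape w i with ⟨j, hj⟩ | ⟨u, hu, hl, _⟩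
  · rw [hj] at hc
    cases hc
  · rw [hu] at hc
    injection hc with hc
    rw [hc] at hl
    omega

theorem Fc_ne_opp (w : List (Fin d)) (i : Fin d) : Fc w i ≠ Lab.opp := by
  intro hc
  rcases Fc_shape w i with ⟨j, hj⟩ | ⟨u, hu, hl, _⟩
  · rw [hj] at hc
    cases hc
  · rw [hu] at hc
    cases hc

theorem Fc_inj (w : List (Fin d)) : Function.Injective (Fc w) := by
  induction w with
  | nil =>
    intro i j h
    have h' : (Lab.base i : Lab d) = Lab.base j := h
    injection h'
  | cons a w ih =>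
    intro i j h
    rw [Fc_cons, Fc_cons] at h
    split_ifs at h with h1 h2 h2
    · rw [h1, h2]
    · exact absurd h.symm (Fc_ne_apx le_rfl j)
    · exact absurd h (Fc_ne_apx le_rfl i)
    · exact ih h

theorem mem_FS {w : List (Fin d)} {y : Lab d} : y ∈ FS w ↔ ∃ i, Fc w i = y := by
  simp [FS]

theorem apx_mem_FS {w v : List (Fin d)} (h : Lab.apx v ∈ FS w) : v.length < w.length ∧ v <:+ w := by
  obtain ⟨i, hi⟩ := mem_FS.1 h
  rcases Fc_shape w i with ⟨j, hj⟩ | ⟨u, hu, hl, hs⟩
  · rw [hj] at hi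
    cases hi
  · rw [hu] at hi
    injection hi with hi
    rw [← hi]
    exact ⟨hl, hs⟩

theorem opp_not_mem_FS (w : List (Fin d)) : (Lab.opp : Lab d) ∉ FS w := by
  intro h
  obtain ⟨i, hi⟩ := mem_FS.1 h
  exact Fc_ne_opp w i hi

theorem card_FS (w : List (Fin d)) : (FS w).card = d := by
  rw [FS, Finset.card_image_of_injective _ (Fc_inj w), Finset.card_univ, Fintype.card_fin]

theorem Tv_inj (w : List (Fin d)) : Function.Injective (Tv w) := by
  rintro (_ | i) (_ | j) h
  · rfl
  · exact absurd (show Fc w j = Lab.apx w from h.symm) (Fc_ne_apx le_rfl j)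
  · exact absurd (show Fc w i = Lab.apx w from h) (Fc_ne_apx le_rfl i)
  · rw [Fc_inj w (show Fc w i = Fc w j from h)]

theorem Tv_mem (w : List (Fin d)) (j : Option (Fin d)) : Tv w j ∈ TS w := by
  rcases j with _ | i
  · exact Finset.mem_insert_self _ _
  · exact Finset.mem_insert_of_mem (mem_FS.2 ⟨i, rfl⟩)

theorem suffix_mem_wd {k : ℕ} {v w : List (Fin d)} (h : v.length ≤ w.length) (hw : w ∈ wd d k) :
    v ∈ wd d k := by
  rw [mem_wd] at hw ⊢
  omega

theorem base_mem (k : ℕ) (j : Fin d) : Lab.base j ∈ LS (wd d k) := by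
  refine Finset.mem_union_left _ (Finset.mem_insert_of_mem ?_)
  exact Finset.mem_image_of_mem _ (Finset.mem_univ _)

theorem opp_mem (k : ℕ) : (Lab.opp : Lab d) ∈ LS (wd d k) :=
  Finset.mem_union_left _ (Finset.mem_insert_self _ _)

theorem apx_mem {k : ℕ} {v : List (Fin d)} : Lab.apx v ∈ LS (wd d k) ↔ v ∈ wd d k := by
  constructor
  · intro h
    rcases Finset.mem_union.1 h with h | h
    · rcases Finset.mem_insert.1 h with h | h
      · cases h
      · obtain ⟨j, _, hj⟩ := Finset.mem_image.1 h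
        cases hj
    · obtain ⟨u, hu, hj⟩ := Finset.mem_image.1 h
      injection hj with hj
      rwa [← hj]
  · intro h
    exact Finset.mem_union_right _ (Finset.mem_image_of_mem _ h)

theorem Fc_mem {k : ℕ} {w : List (Fin d)} (hw : w.length ≤ k) (i : Fin d) :
    Fc w i ∈ LS (wd d k) := by
  rcases Fc_shape w i with ⟨j, hj⟩ | ⟨v, hv, hl, _⟩
  · rw [hj]
    exact base_mem k j
  · rw [hv, apx_mem, mem_wd]
    omega

theorem TS_sub {k : ℕ} {w : List (Fin d)} (hw : w ∈ wd d k) : TS w ⊆ LS (wd d k) := by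
  intro y hy
  rcases Finset.mem_insert.1 hy with rfl | hy
  · exact apx_mem.2 hw
  · obtain ⟨i, rfl⟩ := mem_FS.1 hy
    exact Fc_mem (mem_wd.1 hw).le i

theorem mem_FS_cons {w : List (Fin d)} {i : Fin d} {y : Lab d} :
    y ∈ FS (i :: w) ↔ y = Lab.apx w ∨ ∃ j, j ≠ i ∧ Fc w j = y := by
  rw [mem_FS]
  constructor
  · rintro ⟨j, hj⟩
    rw [Fc_cons] at hj
    split_ifs at hj with h
    · exact Or.inl hj.symm
    · exact Or.inr ⟨j, h, hj⟩
  · rintro (rfl | ⟨j, hj, rfl⟩)
    · exact ⟨i, by rw [Fc_cons, if_pos rfl]⟩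
    · exact ⟨j, by rw [Fc_cons, if_neg hj]⟩

theorem FS_inj {v w : List (Fin d)} (h : FS v = FS w) : v = w := by
  cases v with
  | nil =>
    cases w with
    | nil => rfl
    | cons j w =>
      have h1 : Lab.apx w ∈ FS ([] : List (Fin d)) := by
        rw [h]
        exact mem_FS_cons.2 (Or.inl rfl)
      have := (apx_mem_FS h1).1
      simp at this
  | cons i v =>
    cases w with
    | nil =>
      have h1 : Lab.apx v ∈ FS ([] : List (Fin d)) := by
        rw [← h]
        exact mem_FS_cons.2 (Or.inl rfl)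
      have := (apx_mem_FS h1).1
      simp at this
    | cons j w =>
      have h1 : Lab.apx v ∈ FS (j :: w) := by
        rw [← h]
        exact mem_FS_cons.2 (Or.inl rfl)
      have h2 : Lab.apx w ∈ FS (i :: v) := by
        rw [h]
        exact mem_FS_cons.2 (Or.inl rfl)
      have hvw : v = w := by
        rcases mem_FS_cons.1 h1 with h3 | ⟨l, _, hl⟩
        · injection h3
        · rcases mem_FS_cons.1 h2 with h4 | ⟨l', _, hl'⟩
          · injection h4 with h4
            exact h4.symm
          · have h5 : Lab.apx v ∈ FS w := mem_FS.2 ⟨l, hl⟩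
            have h6 : Lab.apx w ∈ FS v := mem_FS.2 ⟨l', hl'⟩
            have := (apx_mem_FS h5).1
            have := (apx_mem_FS h6).1
            omega
      subst hvw
      by_contra hne
      have hij : i ≠ j := fun e => hne (by rw [e])
      have h3 : Fc v j ∈ FS (i :: v) := mem_FS_cons.2 (Or.inr ⟨j, hij.symm, rfl⟩)
      rw [h] at h3
      rcases mem_FS_cons.1 h3 with h4 | ⟨l, hl, hl'⟩
      · exact Fc_ne_apx le_rfl j h4
      · exact hl (Fc_inj v hl')

theorem exists_mem_FS {v w : List (Fin d)} (h : v ≠ w) : ∃ y ∈ FS v, y ∉ FS w := by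
  by_contra hcon
  push Not at hcon
  have h1 : FS v ⊆ FS w := hcon
  have h2 : FS v = FS w := Finset.eq_of_subset_of_card_le h1 (by rw [card_FS, card_FS])
  exact h (FS_inj h2)

theorem inBr_not_mem_FS {w : List (Fin d)} {y : Lab d} (h : InBr w y) : y ∉ FS w := by
  obtain ⟨u, rfl⟩ := h
  intro h1
  have := (apx_mem_FS h1).1
  rw [List.length_append] at this
  omega

end Pool.Agent.V8H33.GJ
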